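import Pool.Agent.H5.Jump.Count
import Pool.Agent.H5.Short.Scales

/-!
The jump inequality for the number of primes in short intervals.
-/

namespace Pool.Agent.H5.Jump

open Finset
open Pool.Agent.H5.Short (pc second pc_eq_range)

/-- second moment at scale `h`, `log X ≤ h ≤ 4 X` -/
theorem second_base : ∃ C : ℝ, 0 < C ∧ ∀ X h0 : ℕ, 4 ≤ X → Real.log X ≤ h0 → h0 ≤ 4 * X →
    ∑ n ∈ range (4 * X), (pc n h0 : ℝ) ^ 2 ≤ C * X / (Real.log X) ^ 2 * (h0 : ℝ) ^ 2 := by
  obtain ⟨C, hC, hsec⟩ := second
  refine ⟨12 * C, by positivity, ?_⟩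
  intro X h0 hX hh0 hsmall
  have hXR : (4 : ℝ) ≤ X := by exact_mod_cast hX
  have hX0 : (0 : ℝ) < X := by linarith
  have hlog : 0 < Real.log X := Real.log_pos (by linarith)
  have hh0R : (0 : ℝ) < h0 := by linarith
  have hh0pos : 0 < h0 := by exact_mod_cast hh0R
  set N := 4 * X with hN
  have h5 := hsec N h0 (by omega) hh0pos (by omega)
  have hlogN : Real.log X ≤ Real.log N := Real.log_le_log hX0 (by rw [hN]; push_cast; linarith)
  have hlogN2 : Real.log N ≤ 2 * Real.log X := by
    have : Real.log N ≤ Real.log ((X : ℝ) ^ 2) := by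
      apply Real.log_le_log
      · rw [hN]; push_cast; linarith
      · rw [hN]; push_cast; nlinarith
    rw [Real.log_pow] at this
    push_cast at this
    exact this
  have hlogN0 : 0 < Real.log N := by linarith
  have hNR : (N : ℝ) = 4 * X := by rw [hN]; push_cast; ring
  have h6 : (h0 : ℝ) * N / Real.log N ≤ 2 * ((h0 : ℝ) ^ 2 * N / (Real.log N) ^ 2) := by
    rw [← mul_div_assoc, div_le_div_iff₀ hlogN0 (by positivity)]
    have h7 : Real.log N ≤ 2 * h0 := by linarith
    have h8 : 0 ≤ (h0 : ℝ) * N * Real.log N := by positivity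
    nlinarith
  have h9 : (h0 : ℝ) ^ 2 * N / (Real.log N) ^ 2 ≤ 4 * ((h0 : ℝ) ^ 2 * X / (Real.log X) ^ 2) := by
    rw [hNR, show 4 * ((h0 : ℝ) ^ 2 * X / (Real.log X) ^ 2) =
      (h0 : ℝ) ^ 2 * (4 * X) / (Real.log X) ^ 2 by ring]
    rw [hNR] at hlogN
    gcongr
  calc _ ≤ C * ((h0 : ℝ) * N / Real.log N + (h0 : ℝ) ^ 2 * N / (Real.log N) ^ 2) := h5
    _ ≤ C * (2 * (4 * ((h0 : ℝ) ^ 2 * X / (Real.log X) ^ 2)) +
        4 * ((h0 : ℝ) ^ 2 * X / (Real.log X) ^ 2)) := by
        gcongr
        linarith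
    _ = _ := by ring

/-- the prime indicator on the cyclic group -/
noncomputable def pr (X M : ℕ) (x : ZMod M) : ℝ :=
  if X < x.val ∧ x.val ≤ 4 * X ∧ x.val.Prime then 1 else 0

theorem pr_nonneg (X M : ℕ) (x : ZMod M) : 0 ≤ pr X M x := by unfold pr; split_ifs <;> norm_num

theorem S_pr_le (X M h : ℕ) [NeZero M] (hM : 8 * X ≤ M) (hh : h ≤ X) (x : ZMod M) :
    S (pr X M) x h ≤ if x.val ≤ 4 * X then (pc (x.val - 1) h : ℝ) else 0 := by
  have hval : ∀ i < h, (x + ((i : ℕ) : ZMod M)).val = if x.val + i < M then x.val + i else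
      x.val + i - M := by
    intro i hi
    have hlt := ZMod.val_lt x
    have hiM : ((i : ℕ) : ZMod M).val = i := ZMod.val_cast_of_lt (by omega)
    rw [ZMod.val_add, hiM]
    split_ifs with h1
    · exact Nat.mod_eq_of_lt h1
    · rw [Nat.mod_eq_sub_mod (by omega), Nat.mod_eq_of_lt (by omega)]
  have hle : ∀ i ∈ range h, pr X M (x + ((i : ℕ) : ZMod M)) ≤
      if x.val ≤ 4 * X then (if (x.val + i).Prime then (1 : ℝ) else 0) else 0 := by
    intro i hi
    rw [mem_range] at hi
    unfold pr
    rw [hval i hi]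
    by_cases h1 : x.val + i < M
    · rw [if_pos h1]
      by_cases h2 : X < x.val + i ∧ x.val + i ≤ 4 * X ∧ (x.val + i).Prime
      · rw [if_pos h2, if_pos (by omega), if_pos h2.2.2]
      · rw [if_neg h2]
        split_ifs <;> norm_num
    · rw [if_neg h1]
      have hlt := ZMod.val_lt x
      have h2 : ¬ (X < x.val + i - M ∧ x.val + i - M ≤ 4 * X ∧ (x.val + i - M).Prime) := by
        rintro ⟨h3, _⟩
        omega
      rw [if_neg h2]
      split_ifs <;> norm_num
  unfold S
  refine (sum_le_sum hle).trans ?_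
  split_ifs with h1
  · rw [pc_eq_range]
    rcases Nat.eq_zero_or_pos x.val with h0 | hpos
    · -- `x = 0`: shift by one
      rw [h0]
      simp only [Nat.zero_sub, zero_add]
      rw [show (∑ i ∈ range h, if Nat.Prime i then (1 : ℝ) else 0) =
        ∑ i ∈ range h, (if Nat.Prime i then (1 : ℝ) else 0) from rfl]
      rcases Nat.eq_zero_or_pos h with hz | hz
      · subst hz; simp
      · obtain ⟨s, rfl⟩ : ∃ s, h = s + 1 := ⟨h - 1, by omega⟩
        rw [sum_range_succ', if_neg (by norm_num), add_zero]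
        have h2 : ∀ i ∈ range s, (if Nat.Prime (i + 1) then (1 : ℝ) else 0) =
            (if Nat.Prime (1 + i) then (1 : ℝ) else 0) := by
          intro i _
          rw [add_comm]
        rw [sum_congr rfl h2]
        apply sum_le_sum_of_subset_of_nonneg
        · intro i hi
          rw [mem_range] at hi ⊢
          omega
        · intro i _ _
          split_ifs <;> norm_num
    · apply le_of_eq
      apply sum_congr rfl
      intro i _
      rw [Nat.sub_add_cancel hpos]
  · simp

theorem sum_val (M : ℕ) [NeZero M] (F : ℕ → ℝ) : ∑ x : ZMod M, F x.val = ∑ y ∈ range M, F y := by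
  symm
  apply sum_nbij' (fun y : ℕ => (y : ZMod M)) (fun x : ZMod M => x.val)
  · intro y _; exact mem_univ _
  · intro x _; rw [mem_range]; exact ZMod.val_lt x
  · intro y hy; rw [mem_range] at hy; exact ZMod.val_cast_of_lt hy
  · intro x _; exact ZMod.natCast_zmod_val x
  · intro y hy
    rw [mem_range] at hy
    rw [ZMod.val_cast_of_lt hy]

theorem e_pr : ∃ C : ℝ, 0 < C ∧ ∀ X M h : ℕ, ∀ [NeZero M], 4 ≤ X → 8 * X ≤ M → h ≤ X →
    Real.log X ≤ h → e (pr X M) h ≤ C * X / (Real.log X) ^ 2 := by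
  obtain ⟨C, hC, hsec⟩ := second_base
  refine ⟨2 * C, by positivity, ?_⟩
  intro X M h _ hX hM hh hlogh
  have hXR : (4 : ℝ) ≤ X := by exact_mod_cast hX
  have hlog : 0 < Real.log X := Real.log_pos (by linarith)
  have hhR : (0 : ℝ) < h := by linarith
  have h1 := hsec X h hX hlogh (by omega)
  have h2 : ∑ x : ZMod M, S (pr X M) x h ^ 2 ≤ 2 * ∑ n ∈ range (4 * X), (pc n h : ℝ) ^ 2 := by
    calc _ ≤ ∑ x : ZMod M, (if x.val ≤ 4 * X then (pc (x.val - 1) h : ℝ) ^ 2 else 0) := by
          apply sum_le_sum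
          intro x _
          have h3 := S_pr_le X M h hM hh x
          have h4 := S_nonneg (pr X M) (pr_nonneg X M) x h
          split_ifs at h3 ⊢ with h5
          · exact pow_le_pow_left₀ h4 h3 2
          · have : S (pr X M) x h = 0 := le_antisymm h3 h4
            rw [this]; norm_num
      _ = ∑ y ∈ range M, (if y ≤ 4 * X then (pc (y - 1) h : ℝ) ^ 2 else 0) :=
          sum_val M (fun y => if y ≤ 4 * X then (pc (y - 1) h : ℝ) ^ 2 else 0)
      _ = ∑ y ∈ range (4 * X + 1), (pc (y - 1) h : ℝ) ^ 2 := by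
          rw [← sum_filter]
          apply sum_congr _ (fun _ _ => rfl)
          ext y
          rw [mem_filter, mem_range, mem_range]
          omega
      _ = ∑ y ∈ range (4 * X), (pc y h : ℝ) ^ 2 + (pc 0 h : ℝ) ^ 2 := by
          rw [sum_range_succ']
          simp
      _ ≤ ∑ y ∈ range (4 * X), (pc y h : ℝ) ^ 2 + ∑ y ∈ range (4 * X), (pc y h : ℝ) ^ 2 := by
          apply add_le_add le_rfl
          exact single_le_sum (f := fun y => (pc y h : ℝ) ^ 2) (fun y _ => sq_nonneg _)
            (by rw [mem_range]; omega)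
      _ = _ := by ring
  have h3 : e (pr X M) h = (∑ x : ZMod M, S (pr X M) x h ^ 2) / (h : ℝ) ^ 2 := by
    unfold e f
    rw [sum_div]
    apply sum_congr rfl
    intro x _
    rw [div_pow]
  rw [h3, div_le_iff₀ (by positivity)]
  calc _ ≤ _ := h2
    _ ≤ 2 * (C * X / (Real.log X) ^ 2 * (h : ℝ) ^ 2) := by linarith
    _ = _ := by ring

theorem S_pr_eq (X M n H : ℕ) [NeZero M] (hM : 8 * X ≤ M) (hX : 1 ≤ X) (hn : X < n)
    (hn2 : n ≤ 2 * X) (hH : H ≤ n) : S (pr X M) ((n + 1 : ℕ) : ZMod M) H = (pc n H : ℝ) := by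
  rw [pc_eq_range]
  unfold S
  apply sum_congr rfl
  intro i hi
  rw [mem_range] at hi
  unfold pr
  have h1 : (((n + 1 : ℕ) : ZMod M) + ((i : ℕ) : ZMod M)).val = n + 1 + i := by
    rw [← Nat.cast_add]
    exact ZMod.val_cast_of_lt (by omega)
  rw [h1]
  by_cases hp : (n + 1 + i).Prime
  · rw [if_pos hp, if_pos ⟨by omega, by omega, hp⟩]
  · rw [if_neg hp, if_neg (fun h => hp h.2.2)]

/-- **The jump inequality for primes in short intervals.** -/
theorem jumps_primes : ∃ C : ℝ, 0 < C ∧ ∀ X : ℕ, 4 ≤ X → ∀ δ : ℝ, 0 < δ → ∀ J : ℕ → ℕ,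
    (∀ n : ℕ, X < n → n ≤ 2 * X → ∃ H : ℕ → ℕ, Real.log n ≤ H 0 ∧ H (J n) ≤ n ∧
      ∀ i < J n, H i < H (i + 1) ∧
        δ ≤ |(pc n (H (i + 1)) : ℝ) * Real.log n / H (i + 1) -
          (pc n (H i) : ℝ) * Real.log n / H i|) →
    ∑ n ∈ Ioc X (2 * X), (J n : ℝ) ≤ C / δ ^ 2 * X := by
  classical
  obtain ⟨C, hC, hepr⟩ := e_pr
  refine ⟨240000 * C, by positivity, ?_⟩
  intro X hX δ hδ J hJ
  have hXR : (4 : ℝ) ≤ X := by exact_mod_cast hX
  have hlog : 0 < Real.log X := Real.log_pos (by linarith)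
  set h := ⌈Real.log X⌉₊ with hh
  have hhlog : Real.log X ≤ h := Nat.le_ceil _
  have hhpos : 0 < h := Nat.ceil_pos.mpr hlog
  have hhX : h ≤ X := by
    apply Nat.ceil_le.mpr
    have := Real.log_le_sub_one_of_pos (show (0 : ℝ) < X by linarith)
    linarith
  obtain ⟨K, hK⟩ : ∃ K : ℕ, 8 * X < 2 ^ K := ⟨8 * X, Nat.lt_two_pow_self⟩
  set M := 2 ^ K * h with hM
  have hM8 : 8 * X ≤ M := by
    calc 8 * X ≤ 2 ^ K := hK.le
      _ ≤ 2 ^ K * h := Nat.le_mul_of_pos_right _ hhpos
  haveI : NeZero M := ⟨by positivity⟩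
  -- chains
  choose! H hH0 hHn hHi using hJ
  set G : ℕ → Prop := fun n => X < n ∧ n ≤ 2 * X with hG
  have hHmono : ∀ n, G n → Monotone (fun i => H n (min i (J n))) := by
    intro n hn
    apply monotone_nat_of_le_succ
    intro i
    rcases lt_or_ge i (J n) with hi | hi
    · rw [min_eq_left hi.le, min_eq_left (show i + 1 ≤ J n by omega)]
      exact (hHi n hn.1 hn.2 i hi).1.le
    · rw [min_eq_right hi, min_eq_right (show J n ≤ i + 1 by omega)]
  have hh0 : ∀ n, G n → h ≤ H n 0 := by
    intro n hn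
    apply Nat.ceil_le.mpr
    have h1 := hH0 n hn.1 hn.2
    have h2 : Real.log X ≤ Real.log n := by
      apply Real.log_le_log (by linarith)
      exact_mod_cast hn.1.le
    linarith
  have hub : ∀ n, G n → ∀ i, H n (min i (J n)) ≤ n := by
    intro n hn i
    have h1 := hHmono n hn (Nat.le_max_left i (J n))
    simp only at h1
    rw [min_eq_right (Nat.le_max_right i (J n))] at h1
    exact h1.trans (hHn n hn.1 hn.2)
  set J' : ZMod M → ℕ := fun x => if G (x.val - 1) then J (x.val - 1) else 0 with hJ'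
  set H' : ZMod M → ℕ → ℕ := fun x i => if G (x.val - 1) then
    H (x.val - 1) (min i (J (x.val - 1))) else h with hH'
  have hδ' : 0 < δ / (2 * Real.log X) := by positivity
  have hmain := jumps (pr X M) (pr_nonneg X M) h K hhpos hM (δ / (2 * Real.log X)) hδ' J' H'
    (by
      intro x
      by_cases hx : G (x.val - 1)
      · simp only [hH', hx, if_true]
        exact hHmono _ hx
      · simp only [hH', hx, if_false]
        exact monotone_const)
    (by
      intro x
      by_cases hx : G (x.val - 1)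
      · simp only [hH', hx, if_true, Nat.zero_min]
        exact hh0 _ hx
      · simp only [hH', hx, if_false]
        exact le_rfl)
    (by
      intro x i _
      by_cases hx : G (x.val - 1)
      · simp only [hH', hx, if_true]
        have h1 := hub _ hx i
        have h2 := hx.2
        omega
      · simp only [hH', hx, if_false]
        have : 1 * h < 2 ^ K * h := by
          apply Nat.mul_lt_mul_of_pos_right _ hhpos
          omega
        omega)
    (by
      intro x i hi
      by_cases hx : G (x.val - 1)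
      · simp only [hJ', hx, if_true] at hi
        simp only [hH', hx, if_true]
        set n := x.val - 1 with hn
        have hxval : x = ((n + 1 : ℕ) : ZMod M) := by
          have h1 : n + 1 = x.val := by
            have := hx.1
            omega
          rw [h1]
          exact (ZMod.natCast_zmod_val x).symm
        rw [min_eq_left (show i + 1 ≤ J n by omega), min_eq_left hi.le]
        have hb1 := hub n hx (i + 1)
        have hb2 := hub n hx i
        rw [min_eq_left (show i + 1 ≤ J n by omega)] at hb1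
        rw [min_eq_left hi.le] at hb2
        unfold f
        rw [hxval, S_pr_eq X M n _ hM8 (by omega) hx.1 hx.2 hb1,
          S_pr_eq X M n _ hM8 (by omega) hx.1 hx.2 hb2]
        have h3 := (hHi n hx.1 hx.2 i hi).2
        have hnR : (n : ℝ) ≤ 2 * X := by exact_mod_cast hx.2
        have hn0 : (X : ℝ) < n := by exact_mod_cast hx.1
        have h4 : Real.log n ≤ 2 * Real.log X := by
          have : Real.log n ≤ Real.log ((X : ℝ) ^ 2) := by
            apply Real.log_le_log (by linarith)
            nlinarith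
          rw [Real.log_pow] at this
          push_cast at this
          exact this
        have hlogn : 0 < Real.log n := Real.log_pos (by linarith)
        have h5 : (pc n (H n (i + 1)) : ℝ) * Real.log n / H n (i + 1) -
            (pc n (H n i) : ℝ) * Real.log n / H n i =
            Real.log n * ((pc n (H n (i + 1)) : ℝ) / H n (i + 1) - (pc n (H n i) : ℝ) / H n i) := by
          ring
        rw [h5, abs_mul, abs_of_pos hlogn] at h3
        rw [div_le_iff₀ (by positivity)]
        calc δ ≤ _ := h3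
          _ ≤ 2 * Real.log X * |(pc n (H n (i + 1)) : ℝ) / H n (i + 1) -
              (pc n (H n i) : ℝ) / H n i| := mul_le_mul_of_nonneg_right h4 (abs_nonneg _)
          _ = _ := by ring
      · simp only [hJ', hx, if_false] at hi
        exact absurd hi (Nat.not_lt_zero _))
  have hsum : ∑ n ∈ Ioc X (2 * X), (J n : ℝ) ≤ ∑ x, (J' x : ℝ) := by
    have h1 : ∑ x : ZMod M, (J' x : ℝ) = ∑ y ∈ range M,
        ((if G (y - 1) then J (y - 1) else 0 : ℕ) : ℝ) :=
      sum_val M (fun y => ((if G (y - 1) then J (y - 1) else 0 : ℕ) : ℝ))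
    rw [h1]
    have h2 : ∑ n ∈ Ioc X (2 * X), (J n : ℝ) = ∑ y ∈ (Ioc X (2 * X)).image (fun n => n + 1),
        ((if G (y - 1) then J (y - 1) else 0 : ℕ) : ℝ) := by
      rw [sum_image (by intro a _ b _ h; simpa using h)]
      apply sum_congr rfl
      intro n hn
      rw [mem_Ioc] at hn
      simp only [Nat.add_sub_cancel, hG]
      rw [if_pos hn]
    rw [h2]
    apply sum_le_sum_of_subset_of_nonneg
    · intro y hy
      rw [mem_image] at hy
      obtain ⟨n, hn, rfl⟩ := hy
      rw [mem_Ioc] at hn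
      rw [mem_range]
      omega
    · intro y _ _
      exact Nat.cast_nonneg _
  have he := hepr X M h hX hM8 hhX hhlog
  calc ∑ n ∈ Ioc X (2 * X), (J n : ℝ) ≤ ∑ x, (J' x : ℝ) := hsum
    _ ≤ 60000 / (δ / (2 * Real.log X)) ^ 2 * e (pr X M) h := hmain
    _ ≤ 60000 / (δ / (2 * Real.log X)) ^ 2 * (C * X / (Real.log X) ^ 2) :=
        mul_le_mul_of_nonneg_left he (by positivity)
    _ = 240000 * C / δ ^ 2 * X := by
        field_simp
        norm_num

end Pool.Agent.H5.Jump
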