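import Mathlib

/-!
Combinatorial lemmas for the jump inequality.
-/

namespace Pool.Agent.H5.Jump

open Finset

/-- along a monotone sequence each value is used at most twice by the changes -/
theorem mono_double (t : ℕ → ℕ) (ht : Monotone t) (D : ℕ → ℝ) (B : ℕ) (I : Finset ℕ)
    (hI : ∀ i ∈ I, t (i + 1) < B) :
    ∑ i ∈ I, (D (t (i + 1)) - D (t i)) ^ 2 ≤ 4 * ∑ b ∈ range B, D b ^ 2 := by
  classical
  set I' := I.filter (fun i => t i ≠ t (i + 1)) with hI'
  have h1 : ∑ i ∈ I, (D (t (i + 1)) - D (t i)) ^ 2 = ∑ i ∈ I', (D (t (i + 1)) - D (t i)) ^ 2 := by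
    rw [hI', sum_filter]
    apply sum_congr rfl
    intro i _
    split_ifs with h
    · rfl
    · push Not at h
      rw [h]
      ring
  have hlt : ∀ i ∈ I', t i < t (i + 1) := by
    intro i hi
    rw [hI', mem_filter] at hi
    exact lt_of_le_of_ne (ht (Nat.le_succ i)) hi.2
  have h2 : ∑ i ∈ I', D (t (i + 1)) ^ 2 ≤ ∑ b ∈ range B, D b ^ 2 := by
    have hinj : Set.InjOn (fun i => t (i + 1)) (I' : Set ℕ) := by
      intro i hi j hj hij
      simp only at hij
      rcases lt_trichotomy i j with h | h | h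
      · have := ht (show i + 1 ≤ j by omega)
        have := hlt j hj
        omega
      · exact h
      · have := ht (show j + 1 ≤ i by omega)
        have := hlt i hi
        omega
    rw [← sum_image (f := fun b => D b ^ 2) hinj]
    apply sum_le_sum_of_subset_of_nonneg
    · intro b hb
      rw [mem_image] at hb
      obtain ⟨i, hi, rfl⟩ := hb
      rw [mem_range]
      exact hI i (mem_filter.mp hi).1
    · intro b _ _
      positivity
  have h3 : ∑ i ∈ I', D (t i) ^ 2 ≤ ∑ b ∈ range B, D b ^ 2 := by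
    have hinj : Set.InjOn (fun i => t i) (I' : Set ℕ) := by
      intro i hi j hj hij
      simp only at hij
      rcases lt_trichotomy i j with h | h | h
      · have := ht (show i + 1 ≤ j by omega)
        have := hlt i hi
        omega
      · exact h
      · have := ht (show j + 1 ≤ i by omega)
        have := hlt j hj
        omega
    rw [← sum_image (f := fun b => D b ^ 2) hinj]
    apply sum_le_sum_of_subset_of_nonneg
    · intro b hb
      rw [mem_image] at hb
      obtain ⟨i, hi, rfl⟩ := hb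
      rw [mem_range]
      have := hI i (mem_filter.mp hi).1
      have := hlt i hi
      omega
    · intro b _ _
      positivity
  rw [h1]
  calc ∑ i ∈ I', (D (t (i + 1)) - D (t i)) ^ 2 ≤
        ∑ i ∈ I', (2 * D (t (i + 1)) ^ 2 + 2 * D (t i) ^ 2) := by
        apply sum_le_sum
        intro i _
        nlinarith [sq_nonneg (D (t (i + 1)) + D (t i))]
    _ = 2 * ∑ i ∈ I', D (t (i + 1)) ^ 2 + 2 * ∑ i ∈ I', D (t i) ^ 2 := by
        rw [sum_add_distrib, mul_sum, mul_sum]
    _ ≤ _ := by linarith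

/-- increments of a function dominated by a monotone function: telescoping along a chain inside a
range -/
theorem mono_tele (t : ℕ → ℕ) (ht : Monotone t) (Ψ : ℕ → ℝ) (A B : ℕ)
    (hΨ : ∀ s s', A ≤ s → s ≤ s' → s' ≤ B → Ψ s ≤ Ψ s') (I : Finset ℕ)
    (hI : ∀ i ∈ I, A ≤ t i ∧ t (i + 1) ≤ B) :
    ∑ i ∈ I, (Ψ (t (i + 1)) - Ψ (t i)) ≤ if A ≤ B then Ψ B - Ψ A else 0 := by
  classical
  induction I using Finset.induction_on_max generalizing B with
  | empty =>
    simp only [sum_empty]
    split_ifs with h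
    · linarith [hΨ A B le_rfl h le_rfl]
    · exact le_rfl
  | insert a s hmax ih =>
    rw [sum_insert (fun h => lt_irrefl _ (hmax a h))]
    have h1 := hI a (mem_insert_self _ _)
    have h2 : t a ≤ t (a + 1) := ht (Nat.le_succ a)
    have hAB : A ≤ B := by omega
    have h3 := ih (t a) (fun u u' h h' h'' => hΨ u u' h h' (by omega)) (by
      intro i hi
      refine ⟨(hI i (mem_insert_of_mem hi)).1, ht ?_⟩
      have := hmax i hi
      omega)
    rw [if_pos h1.1] at h3
    rw [if_pos hAB]
    have h4 := hΨ (t (a + 1)) B (by omega) h1.2 le_rfl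
    linarith

/-- sums of squares and squares of sums of nonnegative numbers -/
theorem sq_sum_ge (I : Finset ℕ) (g : ℕ → ℝ) (hg : ∀ i ∈ I, 0 ≤ g i) :
    ∑ i ∈ I, g i ^ 2 ≤ (∑ i ∈ I, g i) ^ 2 := by
  rw [sq (∑ i ∈ I, g i), sum_mul]
  apply sum_le_sum
  intro i hi
  rw [sq]
  exact mul_le_mul_of_nonneg_left (single_le_sum (fun j hj => hg j hj) hi) (hg i hi)

/-- the base part of the variation: blocks of length `h` -/
theorem base_double (t : ℕ → ℕ) (ht : Monotone t) (F Ψ : ℕ → ℝ) (h B : ℕ) (hh : 0 < h)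
    (hΨ : ∀ s s', s ≤ s' → s' ≤ B * h → |F s' - F s| ≤ Ψ s' - Ψ s) (I : Finset ℕ)
    (hI : ∀ i ∈ I, t (i + 1) < B * h) :
    ∑ i ∈ I, ((F (t (i + 1)) - F (t (i + 1) / h * h)) - (F (t i) - F (t i / h * h))) ^ 2 ≤
      5 * ∑ b ∈ range B, (Ψ ((b + 1) * h) - Ψ (b * h)) ^ 2 := by
  classical
  have hmono : ∀ s s', s ≤ s' → s' ≤ B * h → Ψ s ≤ Ψ s' := by
    intro s s' h1 h2
    have := hΨ s s' h1 h2
    have := abs_nonneg (F s' - F s)
    linarith
  set D : ℕ → ℝ := fun b => Ψ ((b + 1) * h) - Ψ (b * h) with hD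
  -- bound of the base remainder
  have hrem : ∀ s, s < B * h → |F s - F (s / h * h)| ≤ D (s / h) := by
    intro s hs
    have h1 : s / h * h ≤ s := Nat.div_mul_le_self s h
    have h2 : s ≤ (s / h + 1) * h := by
      have := Nat.lt_div_mul_add (a := s) hh
      rw [add_mul, one_mul]
      omega
    have h3 : (s / h + 1) * h ≤ B * h := by
      apply Nat.mul_le_mul_right
      exact Nat.div_lt_of_lt_mul (by rwa [mul_comm] at hs)
    have h4 := hΨ (s / h * h) s h1 hs.le
    have h5 := hmono s ((s / h + 1) * h) h2 h3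
    simp only [hD]
    linarith
  have hD0 : ∀ b ∈ range B, 0 ≤ D b := by
    intro b hb
    rw [mem_range] at hb
    simp only [hD]
    have := hmono (b * h) ((b + 1) * h) (Nat.mul_le_mul_right _ (Nat.le_succ b))
      (Nat.mul_le_mul_right _ hb)
    linarith
  set I1 := I.filter (fun i => t i / h = t (i + 1) / h) with hI1
  set I2 := I.filter (fun i => ¬ t i / h = t (i + 1) / h) with hI2
  rw [← sum_filter_add_sum_filter_not I (fun i => t i / h = t (i + 1) / h)]
  -- same block
  have hsame : ∑ i ∈ I1, ((F (t (i + 1)) - F (t (i + 1) / h * h)) -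
      (F (t i) - F (t i / h * h))) ^ 2 ≤ ∑ b ∈ range B, D b ^ 2 := by
    have hmaps : ∀ i ∈ I1, t i / h ∈ range B := by
      intro i hi
      rw [hI1, mem_filter] at hi
      rw [mem_range]
      have h1 := hI i hi.1
      rw [hi.2]
      exact Nat.div_lt_of_lt_mul (by rwa [mul_comm] at h1)
    rw [← sum_fiberwise_of_maps_to hmaps]
    apply sum_le_sum
    intro b hb
    have h1 : ∀ i ∈ I1.filter (fun i => t i / h = b),
        ((F (t (i + 1)) - F (t (i + 1) / h * h)) - (F (t i) - F (t i / h * h))) ^ 2 ≤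
        (Ψ (t (i + 1)) - Ψ (t i)) ^ 2 := by
      intro i hi
      rw [mem_filter, hI1, mem_filter] at hi
      obtain ⟨⟨hi1, hi2⟩, hi3⟩ := hi
      rw [← hi2]
      have h2 := hΨ (t i) (t (i + 1)) (ht (Nat.le_succ i)) (hI i hi1).le
      have h3 : F (t (i + 1)) - F (t i / h * h) - (F (t i) - F (t i / h * h)) =
        F (t (i + 1)) - F (t i) := by ring
      rw [h3, ← sq_abs (F (t (i + 1)) - F (t i))]
      exact pow_le_pow_left₀ (abs_nonneg _) h2 2
    have h0 : ∀ i ∈ I1.filter (fun i => t i / h = b), 0 ≤ Ψ (t (i + 1)) - Ψ (t i) := by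
      intro i hi
      rw [mem_filter, hI1, mem_filter] at hi
      obtain ⟨⟨hi1, hi2⟩, hi3⟩ := hi
      have := hmono (t i) (t (i + 1)) (ht (Nat.le_succ i)) (hI i hi1).le
      linarith
    have h2 : ∑ i ∈ I1.filter (fun i => t i / h = b), (Ψ (t (i + 1)) - Ψ (t i)) ≤ D b := by
      rw [mem_range] at hb
      have h3 := mono_tele t ht Ψ (b * h) ((b + 1) * h) (fun s s' _ h' h'' => hmono s s' h'
        (h''.trans (Nat.mul_le_mul_right _ hb))) (I1.filter (fun i => t i / h = b)) (by
        intro i hi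
        rw [mem_filter, hI1, mem_filter] at hi
        obtain ⟨⟨hi1, hi2⟩, hi3⟩ := hi
        constructor
        · rw [← hi3]; exact Nat.div_mul_le_self _ _
        · rw [← hi3, hi2, add_mul, one_mul]
          have := Nat.lt_div_mul_add (a := t (i + 1)) hh
          omega)
      rw [if_pos (Nat.mul_le_mul_right _ (Nat.le_succ b))] at h3
      exact h3
    calc ∑ i ∈ I1.filter (fun i => t i / h = b), _ ≤
          ∑ i ∈ I1.filter (fun i => t i / h = b), (Ψ (t (i + 1)) - Ψ (t i)) ^ 2 := sum_le_sum h1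
      _ ≤ (∑ i ∈ I1.filter (fun i => t i / h = b), (Ψ (t (i + 1)) - Ψ (t i))) ^ 2 :=
          sq_sum_ge _ _ h0
      _ ≤ D b ^ 2 := pow_le_pow_left₀ (sum_nonneg h0) h2 2
  -- different blocks
  have hdiff : ∑ i ∈ I2, ((F (t (i + 1)) - F (t (i + 1) / h * h)) -
      (F (t i) - F (t i / h * h))) ^ 2 ≤ 4 * ∑ b ∈ range B, D b ^ 2 := by
    have hb : ∀ i ∈ I2, ((F (t (i + 1)) - F (t (i + 1) / h * h)) -
        (F (t i) - F (t i / h * h))) ^ 2 ≤ 2 * D (t (i + 1) / h) ^ 2 + 2 * D (t i / h) ^ 2 := by
      intro i hi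
      rw [hI2, mem_filter] at hi
      have h1 := hI i hi.1
      have h2 := hrem _ h1
      have h3 := hrem (t i) (lt_of_le_of_lt (ht (Nat.le_succ i)) h1)
      have h4 : (F (t (i + 1)) - F (t (i + 1) / h * h)) ^ 2 ≤ D (t (i + 1) / h) ^ 2 := by
        rw [← sq_abs (F (t (i + 1)) - F (t (i + 1) / h * h))]
        exact pow_le_pow_left₀ (abs_nonneg _) h2 2
      have h5 : (F (t i) - F (t i / h * h)) ^ 2 ≤ D (t i / h) ^ 2 := by
        rw [← sq_abs (F (t i) - F (t i / h * h))]
        exact pow_le_pow_left₀ (abs_nonneg _) h3 2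
      nlinarith [sq_nonneg ((F (t (i + 1)) - F (t (i + 1) / h * h)) + (F (t i) - F (t i / h * h)))]
    have hm : Monotone (fun i => t i / h) := fun a b hab => Nat.div_le_div_right (ht hab)
    have hlt : ∀ i ∈ I2, t i / h < t (i + 1) / h := by
      intro i hi
      rw [hI2, mem_filter] at hi
      exact lt_of_le_of_ne (hm (Nat.le_succ i)) hi.2
    have hB : ∀ i ∈ I2, t (i + 1) / h < B := by
      intro i hi
      rw [hI2, mem_filter] at hi
      have h1 := hI i hi.1
      exact Nat.div_lt_of_lt_mul (by rwa [mul_comm] at h1)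
    have h2 : ∑ i ∈ I2, D (t (i + 1) / h) ^ 2 ≤ ∑ b ∈ range B, D b ^ 2 := by
      have hinj : Set.InjOn (fun i => t (i + 1) / h) (I2 : Set ℕ) := by
        intro i hi j hj hij
        simp only at hij
        rcases lt_trichotomy i j with h | h | h
        · have h1 := hm (show i + 1 ≤ j by omega)
          have h2 := hlt j hj
          simp only at h1
          omega
        · exact h
        · have h1 := hm (show j + 1 ≤ i by omega)
          have h2 := hlt i hi
          simp only at h1
          omega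
      rw [← sum_image (f := fun b => D b ^ 2) hinj]
      apply sum_le_sum_of_subset_of_nonneg
      · intro b hb
        rw [mem_image] at hb
        obtain ⟨i, hi, rfl⟩ := hb
        rw [mem_range]
        exact hB i hi
      · intro b _ _
        positivity
    have h3 : ∑ i ∈ I2, D (t i / h) ^ 2 ≤ ∑ b ∈ range B, D b ^ 2 := by
      have hinj : Set.InjOn (fun i => t i / h) (I2 : Set ℕ) := by
        intro i hi j hj hij
        simp only at hij
        rcases lt_trichotomy i j with h | h | h
        · have h1 := hm (show i + 1 ≤ j by omega)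
          have h2 := hlt i hi
          simp only at h1
          omega
        · exact h
        · have h1 := hm (show j + 1 ≤ i by omega)
          have h2 := hlt j hj
          simp only at h1
          omega
      rw [← sum_image (f := fun b => D b ^ 2) hinj]
      apply sum_le_sum_of_subset_of_nonneg
      · intro b hb
        rw [mem_image] at hb
        obtain ⟨i, hi, rfl⟩ := hb
        rw [mem_range]
        have := hB i hi
        have := hlt i hi
        omega
      · intro b _ _
        positivity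
    calc _ ≤ ∑ i ∈ I2, (2 * D (t (i + 1) / h) ^ 2 + 2 * D (t i / h) ^ 2) := sum_le_sum hb
      _ = 2 * ∑ i ∈ I2, D (t (i + 1) / h) ^ 2 + 2 * ∑ i ∈ I2, D (t i / h) ^ 2 := by
          rw [sum_add_distrib, mul_sum, mul_sum]
      _ ≤ _ := by linarith
  linarith

/-- weighted Cauchy-Schwarz with weights `(3/4)^(k-j)` -/
theorem weighted (k : ℕ) (y : ℕ → ℝ) (z : ℝ) :
    (∑ j ∈ range k, y j + z) ^ 2 ≤
      4 * (∑ j ∈ range k, (4 / 3 : ℝ) ^ (k - j) * y j ^ 2 + (4 / 3 : ℝ) ^ k * z ^ 2) := by
  induction k generalizing z with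
  | zero => simp; nlinarith [sq_nonneg z]
  | succ k ih =>
    rw [sum_range_succ, sum_range_succ]
    have e1 : ∑ j ∈ range k, (4 / 3 : ℝ) ^ (k + 1 - j) * y j ^ 2 =
        4 / 3 * ∑ j ∈ range k, (4 / 3 : ℝ) ^ (k - j) * y j ^ 2 := by
      rw [mul_sum]
      apply sum_congr rfl
      intro j hj
      rw [mem_range] at hj
      rw [show k + 1 - j = (k - j) + 1 by omega, pow_succ]
      ring
    rw [e1, show k + 1 - k = 1 by omega, pow_one]
    have h1 := ih z
    -- (A + y + z)^2 ≤ (4/3) (A + z)^2 + 4 y^2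
    set A := ∑ j ∈ range k, y j
    have h2 : (A + y k + z) ^ 2 ≤ 4 / 3 * (A + z) ^ 2 + 4 * y k ^ 2 := by
      nlinarith [sq_nonneg ((A + z) - 3 * y k)]
    have h3 : (0 : ℝ) ≤ (4 / 3) ^ k := by positivity
    have h4 := sq_nonneg (y k)
    rw [pow_succ (4 / 3 : ℝ) k]
    nlinarith

/-- the number of greedy jumps of size `δ` of the sequence `v (k-1), v (k-2), ..., v 0`, starting
from the reference value `c` -/
noncomputable def gcnt (δ : ℝ) (v : ℕ → ℝ) : ℕ → ℝ → ℕ
  | 0, _ => 0
  | k + 1, c => if δ ≤ |v k - c| then gcnt δ v k (v k) + 1 else gcnt δ v k c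

/-- the greedy count dominates the number of disjoint jumps of twice the size -/
theorem greedy (δ : ℝ) (hδ : 0 < δ) (v : ℕ → ℝ) (κ : ℕ → ℕ) (hκ : Monotone κ) (K : ℕ) :
    (∀ c : ℝ, ∀ I : Finset ℕ, (∀ i ∈ I, κ (i + 1) < K ∧ 2 * δ ≤ |v (κ (i + 1)) - v (κ i)|) →
      I.card ≤ gcnt δ v K c) ∧
    (∀ c : ℝ, ∀ I : Finset ℕ, ∀ p : ℕ, p < K → δ ≤ |v p - c| →
      (∀ i ∈ I, κ (i + 1) ≤ p ∧ 2 * δ ≤ |v (κ (i + 1)) - v (κ i)|) →
      I.card + 1 ≤ gcnt δ v K c) := by
  classical
  have hlt : ∀ i, 2 * δ ≤ |v (κ (i + 1)) - v (κ i)| → κ i < κ (i + 1) := by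
    intro i hi
    rcases (hκ (Nat.le_succ i)).lt_or_eq with h | h
    · exact h
    · rw [← h, sub_self, abs_zero] at hi
      linarith
  induction K with
  | zero =>
    constructor
    · intro c I hI
      have : I = ∅ := by
        rw [eq_empty_iff_forall_notMem]
        intro i hi
        exact absurd (hI i hi).1 (Nat.not_lt_zero _)
      simp [this]
    · intro c I p hp
      exact absurd hp (Nat.not_lt_zero _)
  | succ K ih =>
    obtain ⟨ih1, ih2⟩ := ih
    -- auxiliary statement: sets of jumps with ends at most `K` split off the jump ending at `K`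
    have aux : ∀ I : Finset ℕ, (∀ i ∈ I, κ (i + 1) ≤ K ∧ 2 * δ ≤ |v (κ (i + 1)) - v (κ i)|) →
        (∀ i ∈ I, κ (i + 1) < K) ∨ ∃ a ∈ I, κ (a + 1) = K ∧ κ a < K ∧
          ∀ i ∈ I.erase a, κ (i + 1) ≤ κ a := by
      intro I hI
      by_cases hex : ∃ a ∈ I, κ (a + 1) = K
      · right
        obtain ⟨a, haI, haK⟩ := hex
        have h1 := hlt a (hI a haI).2
        refine ⟨a, haI, haK, by omega, ?_⟩
        intro i hi
        rw [mem_erase] at hi
        rcases lt_trichotomy i a with h | h | h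
        · exact hκ (by omega)
        · exact absurd h hi.1
        · exfalso
          have h2 := hκ (show a + 1 ≤ i by omega)
          have h3 := hlt i (hI i hi.2).2
          have h4 := (hI i hi.2).1
          omega
      · left
        push Not at hex
        intro i hi
        exact lt_of_le_of_ne (hI i hi).1 (hex i hi)
    constructor
    · intro c I hI
      have hI' : ∀ i ∈ I, κ (i + 1) ≤ K ∧ 2 * δ ≤ |v (κ (i + 1)) - v (κ i)| := fun i hi =>
        ⟨Nat.lt_succ_iff.mp (hI i hi).1, (hI i hi).2⟩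
      rw [gcnt]
      rcases aux I hI' with hA | ⟨a, haI, haK, hap, hrest⟩
      · have hI2 : ∀ i ∈ I, κ (i + 1) < K ∧ 2 * δ ≤ |v (κ (i + 1)) - v (κ i)| := fun i hi =>
          ⟨hA i hi, (hI i hi).2⟩
        split_ifs
        · exact (ih1 (v K) I hI2).trans (Nat.le_succ _)
        · exact ih1 c I hI2
      · have hcard : I.card = (I.erase a).card + 1 := (card_erase_add_one haI).symm
        have hI2 : ∀ i ∈ I.erase a, κ (i + 1) < K ∧ 2 * δ ≤ |v (κ (i + 1)) - v (κ i)| :=
          fun i hi => ⟨lt_of_le_of_lt (hrest i hi) hap, (hI i (mem_of_mem_erase hi)).2⟩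
        have hI3 : ∀ i ∈ I.erase a, κ (i + 1) ≤ κ a ∧ 2 * δ ≤ |v (κ (i + 1)) - v (κ i)| :=
          fun i hi => ⟨hrest i hi, (hI i (mem_of_mem_erase hi)).2⟩
        split_ifs with hj
        · rw [hcard]
          exact Nat.succ_le_succ (ih1 (v K) _ hI2)
        · rw [hcard]
          apply ih2 c _ (κ a) hap _ hI3
          push Not at hj
          have h1 := (hI a haI).2
          rw [haK] at h1
          have h2 : |v K - v (κ a)| ≤ |v K - c| + |v (κ a) - c| := by
            have := abs_sub_le (v K) c (v (κ a))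
            rwa [abs_sub_comm c (v (κ a))] at this
          linarith
    · intro c I p hp hpc hI
      rw [gcnt]
      rcases Nat.lt_succ_iff_lt_or_eq.mp hp with hpK | hpK
      · have hI2 : ∀ i ∈ I, κ (i + 1) < K ∧ 2 * δ ≤ |v (κ (i + 1)) - v (κ i)| := fun i hi =>
          ⟨lt_of_le_of_lt (hI i hi).1 hpK, (hI i hi).2⟩
        split_ifs
        · exact Nat.succ_le_succ (ih1 (v K) I hI2)
        · exact ih2 c I p hpK hpc hI
      · subst hpK
        rw [if_pos hpc]
        apply Nat.succ_le_succ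
        rcases aux I hI with hA | ⟨a, haI, haK, hap, hrest⟩
        · exact ih1 _ I fun i hi => ⟨hA i hi, (hI i hi).2⟩
        · have hcard : I.card = (I.erase a).card + 1 := (card_erase_add_one haI).symm
          rw [hcard]
          apply ih2 _ _ (κ a) hap _ (fun i hi => ⟨hrest i hi, (hI i (mem_of_mem_erase hi)).2⟩)
          have h1 := (hI a haI).2
          rw [haK, abs_sub_comm] at h1
          linarith

/-- summation of the geometric averages of a decreasing sequence -/
theorem geom_tele (e : ℕ → ℝ) (he : ∀ k, e (k + 1) ≤ e k) (he0 : ∀ k, 0 ≤ e k) (K : ℕ) :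
    ∑ k ∈ range K, ∑ j ∈ range k, (2 / 3 : ℝ) ^ (k - j) * (e j - e (k + 1)) ≤ 8 * e 0 := by
  set A : ℕ → ℝ := fun k => ∑ j ∈ range k, (2 / 3 : ℝ) ^ (k - j) * (e j - e (k + 1)) with hA
  have hmono : ∀ j k, j ≤ k → e k ≤ e j := by
    intro j k hjk
    induction k, hjk using Nat.le_induction with
    | base => exact le_rfl
    | succ k _ ih => exact (he k).trans ih
  have hA0 : ∀ k, 0 ≤ A k := by
    intro k
    apply sum_nonneg
    intro j hj
    rw [mem_range] at hj
    have := hmono j (k + 1) (by omega)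
    apply mul_nonneg (by positivity)
    linarith
  have hgeom : ∀ k : ℕ, ∑ j ∈ range (k + 1), (2 / 3 : ℝ) ^ (k - j) ≤ 3 := by
    intro k
    have h : ∑ j ∈ range (k + 1), (2 / 3 : ℝ) ^ (k - j) = 3 - 2 * (2 / 3 : ℝ) ^ k := by
      induction k with
      | zero => norm_num
      | succ k ih =>
        rw [sum_range_succ]
        have : ∑ j ∈ range (k + 1), (2 / 3 : ℝ) ^ (k + 1 - j) =
            2 / 3 * ∑ j ∈ range (k + 1), (2 / 3 : ℝ) ^ (k - j) := by
          rw [mul_sum]
          apply sum_congr rfl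
          intro j hj
          rw [mem_range] at hj
          rw [show k + 1 - j = (k - j) + 1 by omega, pow_succ]
          ring
        rw [this, ih, pow_succ]
        simp
        ring
    rw [h]
    have : (0 : ℝ) ≤ (2 / 3) ^ k := by positivity
    linarith
  have hrec : ∀ k, A (k + 1) ≤ 2 / 3 * (A k + (e k - e (k + 1)) + 3 * (e (k + 1) - e (k + 2))) := by
    intro k
    have h1 : A (k + 1) = 2 / 3 * ∑ j ∈ range (k + 1), (2 / 3 : ℝ) ^ (k - j) *
        ((e j - e (k + 1)) + (e (k + 1) - e (k + 2))) := by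
      simp only [hA]
      rw [mul_sum]
      apply sum_congr rfl
      intro j hj
      rw [mem_range] at hj
      rw [show k + 1 - j = (k - j) + 1 by omega, pow_succ]
      ring
    have h2 : ∑ j ∈ range (k + 1), (2 / 3 : ℝ) ^ (k - j) *
        ((e j - e (k + 1)) + (e (k + 1) - e (k + 2))) =
        A k + (e k - e (k + 1)) +
          (∑ j ∈ range (k + 1), (2 / 3 : ℝ) ^ (k - j)) * (e (k + 1) - e (k + 2)) := by
      simp only [mul_add, sum_add_distrib, hA]
      rw [← sum_mul]
      congr 1
      rw [sum_range_succ]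
      simp
    rw [h1, h2]
    have h3 := hgeom k
    have h4 := he (k + 1)
    have h5 : (∑ j ∈ range (k + 1), (2 / 3 : ℝ) ^ (k - j)) * (e (k + 1) - e (k + 2)) ≤
        3 * (e (k + 1) - e (k + 2)) := mul_le_mul_of_nonneg_right h3 (by linarith)
    linarith
  have hmain : ∀ K, ∑ k ∈ range K, A k + 3 * A K ≤ 2 * (e 0 - e K) + 6 * (e 0 - e (K + 1)) := by
    intro K
    induction K with
    | zero =>
      simp [hA]
      exact he 0
    | succ K ih =>
      rw [sum_range_succ]
      have h1 := hrec K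
      have h2 := he K
      have h3 := he (K + 1)
      linarith
  have h1 := hmain K
  have h2 := hA0 K
  have h3 := he0 K
  have h4 := he0 (K + 1)
  linarith

end Pool.Agent.H5.Jump
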