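import Pool.Agent.H5.Jump.Octave

/-!
The jump inequality for averages over intervals on a cyclic group.
-/

namespace Pool.Agent.H5.Jump

open Finset

variable {M : ℕ} [NeZero M] (a : ZMod M → ℝ)

/-- value at level `k` of the dyadic martingale of the grid with origin `θ`, at position `m` -/
noncomputable def v (h : ℕ) (θ : ZMod M) (m k : ℕ) : ℝ :=
  f a (θ + ((m / (2 ^ k * h) * (2 ^ k * h) : ℕ) : ZMod M)) (2 ^ k * h)

theorem div_block (L b m : ℕ) (hL : 0 < L) (hm : m ∈ Ico (b * L) ((b + 1) * L)) : m / L = b := by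
  rw [mem_Ico] at hm
  rw [Nat.div_eq_iff hL]
  constructor
  · exact hm.1
  · have : (b + 1) * L = b * L + L := by ring
    omega

theorem block_sum (h : ℕ) (hh : 0 < h) (θ : ZMod M) (B q : ℕ) :
    ∑ m ∈ Ico (B * h) ((B + q) * h), v a h θ m 0 = S a (θ + ((B * h : ℕ) : ZMod M)) (q * h) := by
  induction q with
  | zero => simp [S]
  | succ q ih =>
    have h1 : B * h ≤ (B + q) * h := Nat.mul_le_mul_right _ (by omega)
    have h2 : (B + q) * h ≤ (B + (q + 1)) * h := Nat.mul_le_mul_right _ (by omega)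
    rw [← sum_Ico_consecutive _ h1 h2, ih, add_mul q 1 h, one_mul, S_add]
    congr 1
    have h3 : ∀ m ∈ Ico ((B + q) * h) ((B + (q + 1)) * h), v a h θ m 0 =
        f a (θ + (((B + q) * h : ℕ) : ZMod M)) h := by
      intro m hm
      unfold v
      have := div_block h (B + q) m hh (by simpa [add_assoc] using hm)
      simp only [pow_zero, one_mul]
      rw [this]
    rw [sum_congr rfl h3, sum_const, Nat.card_Ico, nsmul_eq_mul]
    have h4 : (B + (q + 1)) * h - (B + q) * h = h := by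
      rw [← Nat.sub_mul]
      have : B + (q + 1) - (B + q) = 1 := by omega
      rw [this, one_mul]
    rw [h4]
    unfold f
    have h5 : (h : ℝ) ≠ 0 := by exact_mod_cast hh.ne'
    rw [mul_div_cancel₀ _ h5]
    congr 1
    push_cast
    ring

theorem block_energy (h : ℕ) (hh : 0 < h) (θ : ZMod M) (δ : ℝ) (hδ : 0 ≤ δ) (k : ℕ) :
    ∀ (b : ℕ) (c : ℝ), ∑ m ∈ Ico (b * (2 ^ k * h)) ((b + 1) * (2 ^ k * h)),
      δ ^ 2 * (gcnt δ (v a h θ m) k c : ℝ) ≤
      ∑ m ∈ Ico (b * (2 ^ k * h)) ((b + 1) * (2 ^ k * h)), (v a h θ m 0 - c) ^ 2 := by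
  induction k with
  | zero =>
    intro b c
    have : ∀ m ∈ Ico (b * (2 ^ 0 * h)) ((b + 1) * (2 ^ 0 * h)),
        δ ^ 2 * (gcnt δ (v a h θ m) 0 c : ℝ) = 0 := by
      intro m _
      simp [gcnt]
    rw [sum_congr rfl this, sum_const_zero]
    exact sum_nonneg fun _ _ => sq_nonneg _
  | succ k ih =>
    have hstep : ∀ (b : ℕ) (c : ℝ), ∑ m ∈ Ico (b * (2 ^ k * h)) ((b + 1) * (2 ^ k * h)),
        δ ^ 2 * (gcnt δ (v a h θ m) (k + 1) c : ℝ) ≤
        ∑ m ∈ Ico (b * (2 ^ k * h)) ((b + 1) * (2 ^ k * h)), (v a h θ m 0 - c) ^ 2 := by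
      intro b c
      have hL : 0 < 2 ^ k * h := by positivity
      set w := f a (θ + ((b * (2 ^ k * h) : ℕ) : ZMod M)) (2 ^ k * h) with hw
      have hvk : ∀ m ∈ Ico (b * (2 ^ k * h)) ((b + 1) * (2 ^ k * h)), v a h θ m k = w := by
        intro m hm
        unfold v
        rw [div_block _ b m hL hm]
      by_cases hj : δ ≤ |w - c|
      · have h1 : ∀ m ∈ Ico (b * (2 ^ k * h)) ((b + 1) * (2 ^ k * h)),
            δ ^ 2 * (gcnt δ (v a h θ m) (k + 1) c : ℝ) =
            δ ^ 2 * (gcnt δ (v a h θ m) k w : ℝ) + δ ^ 2 := by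
          intro m hm
          rw [gcnt, hvk m hm, if_pos hj]
          push_cast
          ring
        rw [sum_congr rfl h1, sum_add_distrib, sum_const, Nat.card_Ico, nsmul_eq_mul]
        have hcard : (b + 1) * (2 ^ k * h) - b * (2 ^ k * h) = 2 ^ k * h := by
          rw [← Nat.sub_mul]
          have : b + 1 - b = 1 := by omega
          rw [this, one_mul]
        have h2 := ih b w
        have h3 : ∑ m ∈ Ico (b * (2 ^ k * h)) ((b + 1) * (2 ^ k * h)), v a h θ m 0 =
            ((2 ^ k * h : ℕ) : ℝ) * w := by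
          have h4 := block_sum a h hh θ (b * 2 ^ k) (2 ^ k)
          have e1 : b * 2 ^ k * h = b * (2 ^ k * h) := by ring
          have e2 : (b * 2 ^ k + 2 ^ k) * h = (b + 1) * (2 ^ k * h) := by ring
          rw [e1, e2] at h4
          rw [h4, hw]
          unfold f
          have h5 : (((2 ^ k * h : ℕ)) : ℝ) ≠ 0 := by exact_mod_cast hL.ne'
          rw [mul_div_cancel₀ _ h5]
        have h4 : ∑ m ∈ Ico (b * (2 ^ k * h)) ((b + 1) * (2 ^ k * h)), (v a h θ m 0 - c) ^ 2 =
            ∑ m ∈ Ico (b * (2 ^ k * h)) ((b + 1) * (2 ^ k * h)), (v a h θ m 0 - w) ^ 2 +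
              ((2 ^ k * h : ℕ) : ℝ) * (w - c) ^ 2 := by
          have h5 : ∀ m ∈ Ico (b * (2 ^ k * h)) ((b + 1) * (2 ^ k * h)),
              (v a h θ m 0 - c) ^ 2 = (v a h θ m 0 - w) ^ 2 +
                2 * (w - c) * v a h θ m 0 + (-(2 * (w - c) * w) + (w - c) ^ 2) := by
            intro m _
            ring
          rw [sum_congr rfl h5, sum_add_distrib, sum_add_distrib, ← mul_sum, h3, sum_const,
            Nat.card_Ico, nsmul_eq_mul, hcard]
          ring
        rw [h4, hcard]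
        apply add_le_add h2
        apply mul_le_mul_of_nonneg_left _ (Nat.cast_nonneg _)
        rw [← sq_abs (w - c)]
        exact pow_le_pow_left₀ hδ hj 2
      · have h1 : ∀ m ∈ Ico (b * (2 ^ k * h)) ((b + 1) * (2 ^ k * h)),
            δ ^ 2 * (gcnt δ (v a h θ m) (k + 1) c : ℝ) =
            δ ^ 2 * (gcnt δ (v a h θ m) k c : ℝ) := by
          intro m hm
          rw [gcnt, hvk m hm, if_neg hj]
        rw [sum_congr rfl h1]
        exact ih b c
    intro b c
    have e0 : b * (2 ^ (k + 1) * h) = 2 * b * (2 ^ k * h) := by rw [pow_succ]; ring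
    have e2 : (b + 1) * (2 ^ (k + 1) * h) = (2 * b + 1 + 1) * (2 ^ k * h) := by
      rw [pow_succ]; ring
    have h1 : 2 * b * (2 ^ k * h) ≤ (2 * b + 1) * (2 ^ k * h) :=
      Nat.mul_le_mul_right _ (by omega)
    have h2 : (2 * b + 1) * (2 ^ k * h) ≤ (2 * b + 1 + 1) * (2 ^ k * h) :=
      Nat.mul_le_mul_right _ (by omega)
    rw [e0, e2, ← sum_Ico_consecutive _ h1 h2, ← sum_Ico_consecutive _ h1 h2]
    exact add_le_add (hstep (2 * b) c) (hstep (2 * b + 1) c)

/-- sum over all grids of the greedy counts -/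
theorem grid_energy (h K : ℕ) (hh : 0 < h) (hM : M = 2 ^ K * h) (δ : ℝ) (hδ : 0 ≤ δ) :
    ∑ θ : ZMod M, ∑ m ∈ range M, δ ^ 2 * (gcnt δ (v a h θ m) K 0 : ℝ) ≤ M * e a h := by
  have h1 : ∀ θ : ZMod M, ∑ m ∈ range M, δ ^ 2 * (gcnt δ (v a h θ m) K 0 : ℝ) ≤
      ∑ m ∈ range M, v a h θ m 0 ^ 2 := by
    intro θ
    have h2 := block_energy a h hh θ δ hδ K 0 0
    simp only [zero_mul, zero_add, one_mul, sub_zero] at h2
    rw [← hM] at h2
    rw [range_eq_Ico]
    exact h2
  calc _ ≤ ∑ θ : ZMod M, ∑ m ∈ range M, v a h θ m 0 ^ 2 := sum_le_sum fun θ _ => h1 θ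
    _ = ∑ m ∈ range M, ∑ θ : ZMod M, v a h θ m 0 ^ 2 := sum_comm
    _ = ∑ m ∈ range M, e a h := by
        apply sum_congr rfl
        intro m _
        unfold v
        simp only [pow_zero, one_mul]
        exact transl (fun x => f a x h ^ 2) _
    _ = _ := by rw [sum_const, card_range, nsmul_eq_mul]

/-- the values of a monotone sequence at its changes are distinct -/
theorem mono_inj (κ : ℕ → ℕ) (hκ : Monotone κ) (I : Finset ℕ) (hI : ∀ i ∈ I, κ i < κ (i + 1))
    (K : ℕ) (hK : ∀ i ∈ I, κ (i + 1) < K) (G : ℕ → ℝ) (hG : ∀ k, 0 ≤ G k) :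
    ∑ i ∈ I, (G (κ (i + 1)) + G (κ i)) ≤ 2 * ∑ k ∈ range K, G k := by
  classical
  rw [sum_add_distrib]
  have h1 : ∑ i ∈ I, G (κ (i + 1)) ≤ ∑ k ∈ range K, G k := by
    have hinj : Set.InjOn (fun i => κ (i + 1)) (I : Set ℕ) := by
      intro i hi j hj hij
      simp only at hij
      rcases lt_trichotomy i j with h | h | h
      · have h1 := hκ (show i + 1 ≤ j by omega)
        have h2 := hI j hj
        omega
      · exact h
      · have h1 := hκ (show j + 1 ≤ i by omega)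
        have h2 := hI i hi
        omega
    rw [← sum_image (f := G) hinj]
    apply sum_le_sum_of_subset_of_nonneg
    · intro b hb
      rw [mem_image] at hb
      obtain ⟨i, hi, rfl⟩ := hb
      rw [mem_range]
      exact hK i hi
    · intro b _ _
      exact hG b
  have h2 : ∑ i ∈ I, G (κ i) ≤ ∑ k ∈ range K, G k := by
    have hinj : Set.InjOn (fun i => κ i) (I : Set ℕ) := by
      intro i hi j hj hij
      simp only at hij
      rcases lt_trichotomy i j with h | h | h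
      · have h1 := hκ (show i + 1 ≤ j by omega)
        have h2 := hI i hi
        omega
      · exact h
      · have h1 := hκ (show j + 1 ≤ i by omega)
        have h2 := hI j hj
        omega
    rw [← sum_image (f := G) hinj]
    apply sum_le_sum_of_subset_of_nonneg
    · intro b hb
      rw [mem_image] at hb
      obtain ⟨i, hi, rfl⟩ := hb
      rw [mem_range]
      have := hI i hi
      have := hK i hi
      omega
    · intro b _ _
      exact hG b
  linarith

variable (ha : ∀ x, 0 ≤ a x)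

include ha in
/-- one starting point and one grid -/
theorem one_point (h K : ℕ) (hh : 0 < h) (θ : ZMod M) (m : ℕ) (δ : ℝ) (hδ : 0 < δ)
    (J : ℕ) (H : ℕ → ℕ) (hH : Monotone H) (hH0 : h ≤ H 0) (hHK : ∀ i ≤ J, H i < 2 ^ K * h)
    (hjump : ∀ i < J, δ ≤ |f a (θ + (m : ZMod M)) (H (i + 1)) - f a (θ + (m : ZMod M)) (H i)|) :
    (J : ℝ) ≤ gcnt (δ / 4) (v a h θ m) K 0 + 1 / δ ^ 2 * ∑ k ∈ range K,
      (33 * Q a h k (θ + (m : ZMod M)) +
        32 * (f a (θ + (m : ZMod M)) (2 ^ k * h) - v a h θ m k) ^ 2) := by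
  classical
  set n : ZMod M := θ + (m : ZMod M) with hn
  set κ : ℕ → ℕ := fun i => Nat.log 2 (H i / h) with hκ
  have hκmono : Monotone κ := fun i j hij => Nat.log_mono_right (Nat.div_le_div_right (hH hij))
  have hHh : ∀ i, h ≤ H i := fun i => hH0.trans (hH (Nat.zero_le i))
  have hlow : ∀ i, 2 ^ κ i * h ≤ H i := by
    intro i
    have h1 : 2 ^ κ i ≤ H i / h := by
      apply Nat.pow_log_le_self
      exact (Nat.div_pos (hHh i) hh).ne'
    exact (Nat.mul_le_mul_right _ h1).trans (Nat.div_mul_le_self _ _)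
  have hup : ∀ i, H i < 2 ^ (κ i + 1) * h := by
    intro i
    have h1 : H i / h < 2 ^ (κ i + 1) := Nat.lt_pow_succ_log_self (by norm_num) _
    exact (Nat.div_lt_iff_lt_mul hh).mp h1
  have hκK : ∀ i ≤ J, κ i < K := by
    intro i hi
    have h1 := hHK i hi
    have h2 := hlow i
    have h3 : 2 ^ κ i * h < 2 ^ K * h := lt_of_le_of_lt h2 h1
    have h4 : 2 ^ κ i < 2 ^ K := Nat.lt_of_mul_lt_mul_right h3
    exact (Nat.pow_lt_pow_iff_right (by norm_num)).mp h4
  set T1 := (range J).filter (fun i => 2 * (δ / 4) ≤ |v a h θ m (κ (i + 1)) - v a h θ m (κ i)|)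
    with hT1
  set T2 := (range J).filter (fun i => κ i = κ (i + 1)) with hT2
  set T3 := (range J).filter (fun i => κ i ≠ κ (i + 1) ∧
    ¬ 2 * (δ / 4) ≤ |v a h θ m (κ (i + 1)) - v a h θ m (κ i)|) with hT3
  have hcover : range J ⊆ T1 ∪ (T2 ∪ T3) := by
    intro i hi
    rw [mem_union, mem_union, hT1, hT2, hT3, mem_filter, mem_filter, mem_filter]
    by_cases h1 : 2 * (δ / 4) ≤ |v a h θ m (κ (i + 1)) - v a h θ m (κ i)|
    · exact Or.inl ⟨hi, h1⟩
    · by_cases h2 : κ i = κ (i + 1)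
      · exact Or.inr (Or.inl ⟨hi, h2⟩)
      · exact Or.inr (Or.inr ⟨hi, h2, h1⟩)
  have hcard : J ≤ T1.card + (T2.card + T3.card) := by
    calc J = (range J).card := (card_range J).symm
      _ ≤ (T1 ∪ (T2 ∪ T3)).card := card_le_card hcover
      _ ≤ T1.card + (T2 ∪ T3).card := card_union_le _ _
      _ ≤ _ := by
          have := card_union_le T2 T3
          omega
  -- first type
  have hc1 : T1.card ≤ gcnt (δ / 4) (v a h θ m) K 0 := by
    apply (greedy (δ / 4) (by positivity) (v a h θ m) κ hκmono K).1 0 T1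
    intro i hi
    rw [hT1, mem_filter, mem_range] at hi
    exact ⟨hκK (i + 1) (by omega), hi.2⟩
  -- second type
  have hc2 : (T2.card : ℝ) * δ ^ 2 ≤ ∑ k ∈ range K, Q a h k n := by
    have h1 : (T2.card : ℝ) * δ ^ 2 ≤ ∑ i ∈ T2, (f a n (H (i + 1)) - f a n (H i)) ^ 2 := by
      rw [← nsmul_eq_mul, ← sum_const]
      apply sum_le_sum
      intro i hi
      rw [hT2, mem_filter, mem_range] at hi
      rw [← sq_abs (f a n (H (i + 1)) - f a n (H i))]
      exact pow_le_pow_left₀ hδ.le (hjump i hi.1) 2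
    refine h1.trans ?_
    have hmaps : ∀ i ∈ T2, κ i ∈ range K := by
      intro i hi
      rw [hT2, mem_filter, mem_range] at hi
      rw [mem_range]
      exact hκK i (by omega)
    rw [← sum_fiberwise_of_maps_to hmaps]
    apply sum_le_sum
    intro k _
    have h2 := octave a ha n h k hh (fun i => H i - 2 ^ k * h)
      (fun i j hij => Nat.sub_le_sub_right (hH hij) _) (T2.filter (fun i => κ i = k)) (by
        intro i hi
        rw [mem_filter, hT2, mem_filter] at hi
        obtain ⟨⟨_, h3⟩, h4⟩ := hi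
        have h5 := hup (i + 1)
        have h6 := hlow (i + 1)
        rw [← h3, h4] at h5 h6
        have : 2 ^ (k + 1) * h = 2 ^ k * h + 2 ^ k * h := by rw [pow_succ]; ring
        omega)
    refine le_trans (le_of_eq ?_) h2
    apply sum_congr rfl
    intro i hi
    rw [mem_filter, hT2, mem_filter] at hi
    obtain ⟨⟨_, h3⟩, h4⟩ := hi
    have h5 := hlow i
    have h6 := hlow (i + 1)
    rw [← h3, h4] at h6
    rw [h4] at h5
    rw [Nat.add_sub_cancel' h5, Nat.add_sub_cancel' h6]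
  -- third type
  set G : ℕ → ℝ := fun k => 2 * Q a h k n + 2 * (f a n (2 ^ k * h) - v a h θ m k) ^ 2 with hG
  have hG0 : ∀ k, 0 ≤ G k := by
    intro k
    have := Q_nonneg a h k n
    simp only [hG]
    positivity
  have hr : ∀ i, (f a n (H i) - v a h θ m (κ i)) ^ 2 ≤ G (κ i) := by
    intro i
    have h1 := octave a ha n h (κ i) hh (fun j => if j = 0 then 0 else H i - 2 ^ κ i * h) (by
      intro j j' hjj'
      simp only
      split_ifs with h2 h3
      · exact le_rfl
      · exact Nat.zero_le _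
      · omega
      · exact le_rfl) {0} (by
        intro j hj
        rw [mem_singleton] at hj
        subst hj
        have h5 := hup i
        have h6 := hlow i
        have : 2 ^ (κ i + 1) * h = 2 ^ κ i * h + 2 ^ κ i * h := by rw [pow_succ]; ring
        simp only [zero_add, one_ne_zero, if_false]
        omega)
    simp only [sum_singleton, zero_add, one_ne_zero, if_false, if_true, add_zero] at h1
    rw [Nat.add_sub_cancel' (hlow i)] at h1
    simp only [hG]
    nlinarith [sq_nonneg ((f a n (H i) - f a n (2 ^ κ i * h)) -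
      (f a n (2 ^ κ i * h) - v a h θ m (κ i)))]
  have hc3 : (T3.card : ℝ) * (δ / 2) ^ 2 ≤ 4 * ∑ k ∈ range K, G k := by
    have h1 : (T3.card : ℝ) * (δ / 2) ^ 2 ≤ ∑ i ∈ T3, 2 * (G (κ (i + 1)) + G (κ i)) := by
      rw [← nsmul_eq_mul, ← sum_const]
      apply sum_le_sum
      intro i hi
      rw [hT3, mem_filter, mem_range] at hi
      obtain ⟨hi1, _, hi3⟩ := hi
      push Not at hi3
      have h2 := hjump i hi1
      have h3 := hr (i + 1)
      have h4 := hr i
      set p := f a n (H (i + 1)) - v a h θ m (κ (i + 1))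
      set q := f a n (H i) - v a h θ m (κ i)
      have h5 : δ / 2 ≤ |p - q| := by
        have h6 : f a n (H (i + 1)) - f a n (H i) =
            (p - q) + (v a h θ m (κ (i + 1)) - v a h θ m (κ i)) := by ring
        rw [h6] at h2
        have h7 := abs_add_le (p - q) (v a h θ m (κ (i + 1)) - v a h θ m (κ i))
        linarith
      have h8 : (δ / 2) ^ 2 ≤ (p - q) ^ 2 := by
        rw [← sq_abs (p - q)]
        exact pow_le_pow_left₀ (by positivity) h5 2
      nlinarith [sq_nonneg (p + q)]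
    refine h1.trans ?_
    rw [← mul_sum]
    have h2 := mono_inj κ hκmono T3 (by
      intro i hi
      rw [hT3, mem_filter] at hi
      exact lt_of_le_of_ne (hκmono (Nat.le_succ i)) hi.2.1) K (by
      intro i hi
      rw [hT3, mem_filter, mem_range] at hi
      exact hκK (i + 1) (by omega)) G hG0
    linarith
  have hδ2 : 0 < δ ^ 2 := by positivity
  have hcR : (J : ℝ) ≤ T1.card + (T2.card + T3.card) := by exact_mod_cast hcard
  have hc1R : (T1.card : ℝ) ≤ gcnt (δ / 4) (v a h θ m) K 0 := by exact_mod_cast hc1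
  have hc2' : (T2.card : ℝ) ≤ 1 / δ ^ 2 * ∑ k ∈ range K, Q a h k n := by
    rw [one_div, ← div_eq_inv_mul, le_div_iff₀ hδ2]
    exact hc2
  have hc3' : (T3.card : ℝ) ≤ 1 / δ ^ 2 * (16 * ∑ k ∈ range K, G k) := by
    rw [one_div, ← div_eq_inv_mul, le_div_iff₀ hδ2]
    nlinarith
  have hsum : ∑ k ∈ range K, (33 * Q a h k n +
      32 * (f a n (2 ^ k * h) - v a h θ m k) ^ 2) = ∑ k ∈ range K, Q a h k n +
      16 * ∑ k ∈ range K, G k := by
    rw [mul_sum, ← sum_add_distrib]
    apply sum_congr rfl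
    intro k _
    simp only [hG]
    ring
  rw [hsum, mul_add]
  linarith

include ha in
/-- **The jump inequality on a cyclic group.** -/
theorem jumps (h K : ℕ) (hh : 0 < h) (hM : M = 2 ^ K * h) (δ : ℝ) (hδ : 0 < δ)
    (J : ZMod M → ℕ) (H : ZMod M → ℕ → ℕ) (hH : ∀ n, Monotone (H n)) (hH0 : ∀ n, h ≤ H n 0)
    (hHK : ∀ n, ∀ i ≤ J n, H n i < 2 ^ K * h)
    (hjump : ∀ n, ∀ i < J n, δ ≤ |f a n (H n (i + 1)) - f a n (H n i)|) :
    ∑ n, (J n : ℝ) ≤ 60000 / δ ^ 2 * e a h := by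
  have he0 := e_nonneg a h
  have hMpos : (0 : ℝ) < M := by
    have : 0 < M := Nat.pos_of_ne_zero (NeZero.ne M)
    exact_mod_cast this
  have hδ2 : 0 < δ ^ 2 := by positivity
  -- energies at the dyadic scales
  set ε : ℕ → ℝ := fun k => e a (2 ^ k * h) with hε
  have hε0 : ∀ k, 0 ≤ ε k := fun k => e_nonneg a _
  have hεanti : ∀ k, ε (k + 1) ≤ ε k := by
    intro k
    have := e_mul_le a (2 ^ k * h) 2 (by positivity) (by norm_num)
    simp only [hε]
    rw [pow_succ, mul_comm (2 ^ k) 2, mul_assoc]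
    exact this
  have hε00 : ε 0 = e a h := by simp [hε]
  have hgeo := geom_tele ε hεanti hε0 K
  rw [hε00] at hgeo
  have hg23 : ∑ k ∈ range K, (2 / 3 : ℝ) ^ k ≤ 3 := by
    rw [geom_sum_eq (by norm_num)]
    have : (0 : ℝ) ≤ (2 / 3) ^ K := by positivity
    rw [div_le_iff_of_neg (by norm_num)]
    linarith
  have hg13 : ∑ k ∈ range K, (1 / 3 : ℝ) ^ k ≤ 3 / 2 := by
    rw [geom_sum_eq (by norm_num)]
    have : (0 : ℝ) ≤ (1 / 3) ^ K := by positivity
    rw [div_le_iff_of_neg (by norm_num)]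
    linarith
  have hQ : ∑ k ∈ range K, ∑ x, Q a h k x ≤ 1624 * e a h := by
    calc _ ≤ ∑ k ∈ range K, (128 * ∑ j ∈ range k, (2 / 3 : ℝ) ^ (k - j) * (ε j - ε (k + 1)) +
          200 * (2 / 3 : ℝ) ^ k * e a h) := sum_le_sum fun k _ => sum_Q a ha h k hh
      _ = 128 * ∑ k ∈ range K, ∑ j ∈ range k, (2 / 3 : ℝ) ^ (k - j) * (ε j - ε (k + 1)) +
          200 * (∑ k ∈ range K, (2 / 3 : ℝ) ^ k) * e a h := by
          rw [sum_add_distrib, ← mul_sum, ← sum_mul, ← mul_sum]
      _ ≤ 128 * (8 * e a h) + 200 * 3 * e a h := by gcongr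
      _ = _ := by ring
  have hR : ∀ m : ℕ, ∑ k ∈ range K, ∑ θ : ZMod M,
      (f a (θ + (m : ZMod M)) (2 ^ k * h) - v a h θ m k) ^ 2 ≤ 152 * e a h := by
    intro m
    calc _ ≤ ∑ k ∈ range K, (16 * ∑ j ∈ range k, (2 / 3 : ℝ) ^ (k - j) * (ε j - ε (k + 1)) +
          16 * (1 / 3 : ℝ) ^ k * e a h) := by
          apply sum_le_sum
          intro k _
          have hL : 0 < 2 ^ k * h := by positivity
          have h1 := shift a ha h k (m % (2 ^ k * h)) hh (Nat.mod_lt _ hL)
          refine le_trans (le_of_eq ?_) h1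
          rw [← transl (fun x => (f a (x + ((m % (2 ^ k * h) : ℕ) : ZMod M)) (2 ^ k * h) -
            f a x (2 ^ k * h)) ^ 2) ((m / (2 ^ k * h) * (2 ^ k * h) : ℕ) : ZMod M)]
          apply sum_congr rfl
          intro θ _
          unfold v
          congr 2
          congr 1
          rw [add_assoc, ← Nat.cast_add, Nat.div_add_mod']
      _ = 16 * ∑ k ∈ range K, ∑ j ∈ range k, (2 / 3 : ℝ) ^ (k - j) * (ε j - ε (k + 1)) +
          16 * (∑ k ∈ range K, (1 / 3 : ℝ) ^ k) * e a h := by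
          rw [sum_add_distrib, ← mul_sum, ← sum_mul, ← mul_sum]
      _ ≤ 16 * (8 * e a h) + 16 * (3 / 2) * e a h := by gcongr
      _ = _ := by ring
  have hgrid := grid_energy a h K hh hM (δ / 4) (by positivity)
  -- sum over all pairs
  have hall : ∑ θ : ZMod M, ∑ m ∈ range M, (J (θ + (m : ZMod M)) : ℝ) ≤
      ∑ θ : ZMod M, ∑ m ∈ range M, ((gcnt (δ / 4) (v a h θ m) K 0 : ℝ) +
        1 / δ ^ 2 * ∑ k ∈ range K, (33 * Q a h k (θ + (m : ZMod M)) +
        32 * (f a (θ + (m : ZMod M)) (2 ^ k * h) - v a h θ m k) ^ 2)) := by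
    apply sum_le_sum
    intro θ _
    apply sum_le_sum
    intro m _
    exact one_point a ha h K hh θ m δ hδ (J (θ + m)) (H (θ + m)) (hH _) (hH0 _) (hHK _) (hjump _)
  have hleft : ∑ θ : ZMod M, ∑ m ∈ range M, (J (θ + (m : ZMod M)) : ℝ) = M * ∑ n, (J n : ℝ) := by
    rw [sum_comm]
    have : ∀ m ∈ range M, ∑ θ : ZMod M, (J (θ + (m : ZMod M)) : ℝ) = ∑ n, (J n : ℝ) :=
      fun m _ => transl (fun x => (J x : ℝ)) _
    rw [sum_congr rfl this, sum_const, card_range, nsmul_eq_mul]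
  have hA : ∑ θ : ZMod M, ∑ m ∈ range M, (gcnt (δ / 4) (v a h θ m) K 0 : ℝ) ≤
      16 / δ ^ 2 * (M * e a h) := by
    have h1 : ∑ θ : ZMod M, ∑ m ∈ range M, (δ / 4) ^ 2 * (gcnt (δ / 4) (v a h θ m) K 0 : ℝ) =
        (δ / 4) ^ 2 * ∑ θ : ZMod M, ∑ m ∈ range M, (gcnt (δ / 4) (v a h θ m) K 0 : ℝ) := by
      rw [mul_sum]
      apply sum_congr rfl
      intro θ _
      rw [mul_sum]
    rw [h1] at hgrid
    rw [div_mul_eq_mul_div, le_div_iff₀ hδ2]
    nlinarith
  have hB : ∑ θ : ZMod M, ∑ m ∈ range M, (1 / δ ^ 2 * ∑ k ∈ range K,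
      (33 * Q a h k (θ + (m : ZMod M)) +
        32 * (f a (θ + (m : ZMod M)) (2 ^ k * h) - v a h θ m k) ^ 2)) ≤
      1 / δ ^ 2 * (M * (33 * (1624 * e a h) + 32 * (152 * e a h))) := by
    rw [sum_comm]
    have h1 : ∀ m ∈ range M, ∑ θ : ZMod M, (1 / δ ^ 2 * ∑ k ∈ range K,
        (33 * Q a h k (θ + (m : ZMod M)) +
        32 * (f a (θ + (m : ZMod M)) (2 ^ k * h) - v a h θ m k) ^ 2)) ≤
        1 / δ ^ 2 * (33 * (1624 * e a h) + 32 * (152 * e a h)) := by
      intro m _
      rw [← mul_sum]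
      apply mul_le_mul_of_nonneg_left _ (by positivity)
      rw [sum_comm]
      have h2 : ∀ k ∈ range K, ∑ θ : ZMod M, (33 * Q a h k (θ + (m : ZMod M)) +
          32 * (f a (θ + (m : ZMod M)) (2 ^ k * h) - v a h θ m k) ^ 2) =
          33 * ∑ x, Q a h k x +
          32 * ∑ θ : ZMod M, (f a (θ + (m : ZMod M)) (2 ^ k * h) - v a h θ m k) ^ 2 := by
        intro k _
        rw [sum_add_distrib, ← mul_sum, ← mul_sum, transl (fun x => Q a h k x)]
      rw [sum_congr rfl h2, sum_add_distrib, ← mul_sum, ← mul_sum]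
      have h3 := hR m
      linarith
    calc _ ≤ ∑ m ∈ range M, 1 / δ ^ 2 * (33 * (1624 * e a h) + 32 * (152 * e a h)) :=
          sum_le_sum h1
      _ = _ := by
          rw [sum_const, card_range, nsmul_eq_mul]
          ring
  rw [hleft] at hall
  have hsplit : ∑ θ : ZMod M, ∑ m ∈ range M, ((gcnt (δ / 4) (v a h θ m) K 0 : ℝ) +
        1 / δ ^ 2 * ∑ k ∈ range K, (33 * Q a h k (θ + (m : ZMod M)) +
        32 * (f a (θ + (m : ZMod M)) (2 ^ k * h) - v a h θ m k) ^ 2)) =
      ∑ θ : ZMod M, ∑ m ∈ range M, (gcnt (δ / 4) (v a h θ m) K 0 : ℝ) +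
      ∑ θ : ZMod M, ∑ m ∈ range M, (1 / δ ^ 2 * ∑ k ∈ range K,
      (33 * Q a h k (θ + (m : ZMod M)) +
        32 * (f a (θ + (m : ZMod M)) (2 ^ k * h) - v a h θ m k) ^ 2)) := by
    rw [← sum_add_distrib]
    apply sum_congr rfl
    intro θ _
    rw [sum_add_distrib]
  rw [hsplit] at hall
  have hfin : (M : ℝ) * ∑ n, (J n : ℝ) ≤ M * (58472 / δ ^ 2 * e a h) := by
    calc (M : ℝ) * ∑ n, (J n : ℝ) ≤ 16 / δ ^ 2 * (M * e a h) +
          1 / δ ^ 2 * (M * (33 * (1624 * e a h) + 32 * (152 * e a h))) := by linarith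
      _ = _ := by ring
  have h1 := le_of_mul_le_mul_left hfin hMpos
  refine h1.trans ?_
  gcongr
  norm_num

end Pool.Agent.H5.Jump
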