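import Pool.Agent.H5.Jump.Comb

/-!
Averages over intervals on a cyclic group, and their energies.
-/

namespace Pool.Agent.H5.Jump

open Finset

variable {M : ℕ} [NeZero M] (a : ZMod M → ℝ)

/-- the sum over the interval of length `H` starting at `x` -/
noncomputable def S (x : ZMod M) (H : ℕ) : ℝ := ∑ i ∈ range H, a (x + (i : ZMod M))

/-- the average over the interval of length `H` starting at `x` -/
noncomputable def f (x : ZMod M) (H : ℕ) : ℝ := S a x H / H

/-- the energy at scale `H` -/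
noncomputable def e (H : ℕ) : ℝ := ∑ x : ZMod M, f a x H ^ 2

theorem e_nonneg (H : ℕ) : 0 ≤ e a H := sum_nonneg fun _ _ => sq_nonneg _

theorem S_add (x : ZMod M) (H K : ℕ) : S a x (H + K) = S a x H + S a (x + (H : ZMod M)) K := by
  unfold S
  rw [sum_range_add]
  congr 1
  apply sum_congr rfl
  intro i _
  push_cast
  rw [add_assoc]

theorem S_mul (x : ZMod M) (q L : ℕ) :
    S a x (q * L) = ∑ i ∈ range q, S a (x + ((i * L : ℕ) : ZMod M)) L := by
  induction q with
  | zero => simp [S]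
  | succ q ih => rw [add_mul, one_mul, S_add, ih, sum_range_succ]

theorem transl (F : ZMod M → ℝ) (c : ZMod M) : ∑ x, F (x + c) = ∑ x, F x :=
  Equiv.sum_comp (Equiv.addRight c) F

theorem parent (x : ZMod M) (q L : ℕ) (hL : 0 < L) (hq : 0 < q) :
    ∑ i ∈ range q, f a (x + ((i * L : ℕ) : ZMod M)) L = q * f a x (q * L) := by
  unfold f
  rw [S_mul, ← sum_div]
  push_cast
  have h1 : (L : ℝ) ≠ 0 := by exact_mod_cast hL.ne'
  have h2 : (q : ℝ) ≠ 0 := by exact_mod_cast hq.ne'
  field_simp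

/-- the variance of the `q` block averages around the average of the union of the blocks -/
noncomputable def P (L q : ℕ) (x : ZMod M) : ℝ :=
  ∑ i ∈ range q, (f a (x + ((i * L : ℕ) : ZMod M)) L - f a x (q * L)) ^ 2

theorem P_nonneg (L q : ℕ) (x : ZMod M) : 0 ≤ P a L q x := sum_nonneg fun _ _ => sq_nonneg _

theorem sum_P (L q : ℕ) (hL : 0 < L) (hq : 0 < q) :
    ∑ x, P a L q x = q * (e a L - e a (q * L)) := by
  have h1 : ∀ x : ZMod M, P a L q x =
      ∑ i ∈ range q, f a (x + ((i * L : ℕ) : ZMod M)) L ^ 2 - q * f a x (q * L) ^ 2 := by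
    intro x
    unfold P
    have h2 := parent a x q L hL hq
    have h3 : ∀ i ∈ range q, (f a (x + ((i * L : ℕ) : ZMod M)) L - f a x (q * L)) ^ 2 =
        f a (x + ((i * L : ℕ) : ZMod M)) L ^ 2 -
          2 * f a x (q * L) * f a (x + ((i * L : ℕ) : ZMod M)) L + f a x (q * L) ^ 2 := by
      intro i _
      ring
    rw [sum_congr rfl h3, sum_add_distrib, sum_sub_distrib, ← mul_sum, h2, sum_const, card_range,
      nsmul_eq_mul]
    ring
  rw [sum_congr rfl (fun x _ => h1 x), sum_sub_distrib, sum_comm, ← mul_sum]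
  have h4 : ∀ i ∈ range q, ∑ x : ZMod M, f a (x + ((i * L : ℕ) : ZMod M)) L ^ 2 = e a L := by
    intro i _
    exact transl (fun x => f a x L ^ 2) _
  rw [sum_congr rfl h4, sum_const, card_range, nsmul_eq_mul]
  unfold e
  ring

theorem e_mul_le (L q : ℕ) (hL : 0 < L) (hq : 0 < q) : e a (q * L) ≤ e a L := by
  have h1 := sum_P a L q hL hq
  have h2 : 0 ≤ ∑ x, P a L q x := sum_nonneg fun x _ => P_nonneg a L q x
  rw [h1] at h2
  have h3 : (0 : ℝ) < q := by exact_mod_cast hq
  have h4 := (mul_nonneg_iff_of_pos_left h3).mp h2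
  linarith

/-- comparison of the block after an initial segment with the initial segment -/
theorem seg_sum (x : ZMod M) (L r : ℕ) (hL : 0 < L) (hr : 0 < r) :
    ∑ b ∈ range r, (f a (x + (((r + b) * L : ℕ) : ZMod M)) L - f a x ((r + b) * L)) ^ 2 ≤
      4 * P a L (2 * r) x := by
  set c := f a x (2 * r * L) with hc
  set y : ℕ → ℝ := fun i => f a (x + ((i * L : ℕ) : ZMod M)) L - c with hy
  have hP : P a L (2 * r) x = ∑ i ∈ range (2 * r), y i ^ 2 := rfl
  have hrR : (0 : ℝ) < r := by exact_mod_cast hr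
  have hseg : ∀ b ∈ range r, (f a x ((r + b) * L) - c) ^ 2 ≤ P a L (2 * r) x / r := by
    intro b hb
    rw [mem_range] at hb
    have h1 := parent a x (r + b) L hL (by omega)
    have h2 : ((r + b : ℕ) : ℝ) * (f a x ((r + b) * L) - c) = ∑ i ∈ range (r + b), y i := by
      simp only [hy]
      rw [sum_sub_distrib, h1, sum_const, card_range, nsmul_eq_mul]
      ring
    have h3 : (∑ i ∈ range (r + b), y i) ^ 2 ≤ ((r + b : ℕ) : ℝ) * ∑ i ∈ range (r + b), y i ^ 2 := by
      have := sq_sum_le_card_mul_sum_sq (s := range (r + b)) (f := y)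
      rwa [card_range] at this
    have h4 : ∑ i ∈ range (r + b), y i ^ 2 ≤ P a L (2 * r) x := by
      rw [hP]
      apply sum_le_sum_of_subset_of_nonneg
      · intro i hi
        rw [mem_range] at hi ⊢
        omega
      · intro i _ _
        positivity
    rw [← h2, mul_pow] at h3
    have h5 : (0 : ℝ) < ((r + b : ℕ) : ℝ) := by exact_mod_cast (by omega : 0 < r + b)
    have h6 : ((r + b : ℕ) : ℝ) * (f a x ((r + b) * L) - c) ^ 2 ≤ P a L (2 * r) x := by
      have h7 : ((r + b : ℕ) : ℝ) * (((r + b : ℕ) : ℝ) * (f a x ((r + b) * L) - c) ^ 2) ≤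
          ((r + b : ℕ) : ℝ) * P a L (2 * r) x := by
        calc _ = ((r + b : ℕ) : ℝ) ^ 2 * (f a x ((r + b) * L) - c) ^ 2 := by ring
          _ ≤ _ := h3
          _ ≤ _ := mul_le_mul_of_nonneg_left h4 h5.le
      exact le_of_mul_le_mul_left h7 h5
    rw [le_div_iff₀ hrR]
    have h8 : (r : ℝ) ≤ ((r + b : ℕ) : ℝ) := by exact_mod_cast Nat.le_add_right r b
    nlinarith [sq_nonneg (f a x ((r + b) * L) - c)]
  calc ∑ b ∈ range r, (f a (x + (((r + b) * L : ℕ) : ZMod M)) L - f a x ((r + b) * L)) ^ 2 ≤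
        ∑ b ∈ range r, (2 * y (r + b) ^ 2 + 2 * (P a L (2 * r) x / r)) := by
        apply sum_le_sum
        intro b hb
        have h1 := hseg b hb
        have h2 : f a (x + (((r + b) * L : ℕ) : ZMod M)) L - f a x ((r + b) * L) =
          y (r + b) - (f a x ((r + b) * L) - c) := by
          simp only [hy]
          ring
        rw [h2]
        nlinarith [sq_nonneg (y (r + b) + (f a x ((r + b) * L) - c))]
    _ = 2 * ∑ b ∈ range r, y (r + b) ^ 2 + 2 * P a L (2 * r) x := by
        rw [sum_add_distrib, ← mul_sum, sum_const, card_range, nsmul_eq_mul]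
        field_simp
    _ ≤ 2 * P a L (2 * r) x + 2 * P a L (2 * r) x := by
        have h1 : ∑ b ∈ range r, y (r + b) ^ 2 ≤ P a L (2 * r) x := by
          rw [hP, two_mul, sum_range_add]
          have : 0 ≤ ∑ i ∈ range r, y i ^ 2 := sum_nonneg fun _ _ => sq_nonneg _
          linarith
        linarith
    _ = _ := by ring

/-- one dyadic increment inside an octave -/
theorem oct_D (x : ZMod M) (L r : ℕ) (hL : 0 < L) (hr : 0 < r) :
    ∑ b ∈ range r, (f a x (r * L + b * L) - f a x (r * L + 2 * (b / 2) * L)) ^ 2 ≤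
      4 / (r : ℝ) ^ 2 * P a L (2 * r) x := by
  set g : ℕ → ℝ := fun b => (f a (x + (((r + b) * L : ℕ) : ZMod M)) L - f a x ((r + b) * L)) ^ 2
    with hg
  have hg0 : ∀ b, 0 ≤ g b := fun b => sq_nonneg _
  have hrR : (0 : ℝ) < r := by exact_mod_cast hr
  have hLR : (0 : ℝ) < L := by exact_mod_cast hL
  have hstep : ∀ b, (f a x (r * L + (b + 1) * L) - f a x (r * L + b * L)) ^ 2 ≤
      1 / (r : ℝ) ^ 2 * g b := by
    intro b
    have h1 : r * L + (b + 1) * L = (r + b) * L + L := by ring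
    have h2 : r * L + b * L = (r + b) * L := by ring
    have hm : (0 : ℝ) < ((r + b : ℕ) : ℝ) := by exact_mod_cast (by omega : 0 < r + b)
    have h3 : f a x ((r + b) * L + L) - f a x ((r + b) * L) =
        1 / ((r + b : ℕ) + 1 : ℝ) *
          (f a (x + (((r + b) * L : ℕ) : ZMod M)) L - f a x ((r + b) * L)) := by
      unfold f
      rw [S_add]
      have h4 : (((r + b) * L + L : ℕ) : ℝ) = (((r + b : ℕ) : ℝ) + 1) * L := by push_cast; ring
      have h5 : (((r + b) * L : ℕ) : ℝ) = ((r + b : ℕ) : ℝ) * L := by push_cast; ring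
      rw [h4, h5]
      have h6 : (((r + b : ℕ) : ℝ) + 1) ≠ 0 := by positivity
      field_simp
      ring
    rw [h1, h2, h3, mul_pow]
    apply mul_le_mul_of_nonneg_right _ (hg0 b)
    rw [one_div, one_div, inv_pow]
    apply inv_anti₀ (by positivity)
    apply pow_le_pow_left₀ hrR.le
    push_cast
    linarith [(Nat.cast_nonneg b : (0 : ℝ) ≤ b)]
  have hD : ∀ b, (f a x (r * L + (b + 1) * L) - f a x (r * L + 2 * ((b + 1) / 2) * L)) ^ 2 ≤
      1 / (r : ℝ) ^ 2 * g b := by
    intro b
    rcases Nat.even_or_odd (b + 1) with h | h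
    · have h1 : 2 * ((b + 1) / 2) = b + 1 := Nat.two_mul_div_two_of_even h
      rw [h1, sub_self]
      have := hg0 b
      have h9 : 0 ≤ 1 / (r : ℝ) ^ 2 * g b := mul_nonneg (by positivity) this
      simpa using h9
    · have h1 : 2 * ((b + 1) / 2) = b := by
        obtain ⟨c, hc⟩ := h
        omega
      rw [h1]
      exact hstep b
  obtain ⟨s, rfl⟩ : ∃ s, r = s + 1 := ⟨r - 1, by omega⟩
  rw [sum_range_succ']
  have h0 : (f a x ((s + 1) * L + 0 * L) - f a x ((s + 1) * L + 2 * (0 / 2) * L)) ^ 2 = 0 := by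
    simp
  rw [h0, add_zero]
  calc _ ≤ ∑ b ∈ range s, 1 / ((s + 1 : ℕ) : ℝ) ^ 2 * g b := sum_le_sum fun b _ => hD b
    _ ≤ ∑ b ∈ range (s + 1), 1 / ((s + 1 : ℕ) : ℝ) ^ 2 * g b := by
        apply sum_le_sum_of_subset_of_nonneg
        · intro i hi
          rw [mem_range] at hi ⊢
          omega
        · intro i _ _
          exact mul_nonneg (by positivity) (hg0 i)
    _ = 1 / ((s + 1 : ℕ) : ℝ) ^ 2 * ∑ b ∈ range (s + 1), g b := by rw [mul_sum]
    _ ≤ 1 / ((s + 1 : ℕ) : ℝ) ^ 2 * (4 * P a L (2 * (s + 1)) x) := by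
        apply mul_le_mul_of_nonneg_left (seg_sum a x L (s + 1) hL hr) (by positivity)
    _ = _ := by ring

/-- monotone majorant of the variation of the averages inside an octave -/
noncomputable def Ps (x : ZMod M) (R s : ℕ) : ℝ :=
  (S a x (R + s) + s * (2 * f a x (2 * R))) / R

variable (ha : ∀ x, 0 ≤ a x)

include ha in
theorem S_nonneg (x : ZMod M) (H : ℕ) : 0 ≤ S a x H := sum_nonneg fun _ _ => ha _

include ha in
theorem f_nonneg (x : ZMod M) (H : ℕ) : 0 ≤ f a x H := div_nonneg (S_nonneg a ha x H) (Nat.cast_nonneg _)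

include ha in
theorem S_mono (x : ZMod M) {H K : ℕ} (h : H ≤ K) : S a x H ≤ S a x K := by
  obtain ⟨d, rfl⟩ := Nat.exists_eq_add_of_le h
  rw [S_add]
  linarith [S_nonneg a ha (x + (H : ZMod M)) d]

include ha in
theorem Ps_major (x : ZMod M) (R : ℕ) (hR : 0 < R) (s s' : ℕ) (h : s ≤ s') (h' : s' ≤ R) :
    |f a x (R + s') - f a x (R + s)| ≤ Ps a x R s' - Ps a x R s := by
  have hRR : (0 : ℝ) < R := by exact_mod_cast hR
  have hs : (s : ℝ) ≤ s' := by exact_mod_cast h
  have hs0 : (0 : ℝ) ≤ s := Nat.cast_nonneg _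
  have h1 := S_mono a ha x (show R + s ≤ R + s' by omega)
  have h2 := S_mono a ha x (show R + s ≤ 2 * R by omega)
  have h3 := S_nonneg a ha x (R + s)
  set A := S a x (R + s) with hA
  set A' := S a x (R + s') with hA'
  set T := S a x (2 * R) with hT
  have hf : 2 * f a x (2 * R) = T / R := by
    unfold f
    rw [← hT]
    push_cast
    field_simp
  have e1 : f a x (R + s') - f a x (R + s) =
      (A' - A) / (R + s') - A * (s' - s) / ((R + s) * (R + s')) := by
    unfold f
    rw [← hA, ← hA']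
    push_cast
    have : (R : ℝ) + s ≠ 0 := by positivity
    have : (R : ℝ) + s' ≠ 0 := by positivity
    field_simp
    ring
  have e2 : Ps a x R s' - Ps a x R s = (A' - A) / R + T * (s' - s) / (R * R) := by
    unfold Ps
    rw [hf, ← hA, ← hA']
    field_simp
    ring
  have b1 : (A' - A) / (R + s') ≤ (A' - A) / R := by
    apply div_le_div_of_nonneg_left (by linarith) hRR (by linarith)
  have b2 : A * (s' - s) / ((R + s) * (R + s')) ≤ T * (s' - s) / (R * R) := by
    apply div_le_div₀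
    · exact mul_nonneg (by linarith) (by linarith)
    · exact mul_le_mul_of_nonneg_right h2 (by linarith)
    · positivity
    · nlinarith
  have b3 : 0 ≤ (A' - A) / ((R : ℝ) + s') := div_nonneg (by linarith) (by positivity)
  have b4 : 0 ≤ A * (s' - s) / (((R : ℝ) + s) * (R + s')) :=
    div_nonneg (mul_nonneg h3 (by linarith)) (by positivity)
  rw [e1, e2, abs_le]
  constructor <;> linarith

include ha in
theorem Ps_sum (h B : ℕ) (hh : 0 < h) (hB : 0 < B) :
    ∑ x, ∑ b ∈ range B, (Ps a x (B * h) ((b + 1) * h) - Ps a x (B * h) (b * h)) ^ 2 ≤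
      10 / (B : ℝ) * e a h := by
  have hBR : (0 : ℝ) < B := by exact_mod_cast hB
  have hhR : (0 : ℝ) < h := by exact_mod_cast hh
  have h1 : ∀ x : ZMod M, ∀ b : ℕ, Ps a x (B * h) ((b + 1) * h) - Ps a x (B * h) (b * h) =
      1 / (B : ℝ) * (f a (x + ((B * h + b * h : ℕ) : ZMod M)) h + 2 * f a x (2 * (B * h))) := by
    intro x b
    unfold Ps
    rw [show B * h + (b + 1) * h = (B * h + b * h) + h by ring, S_add a x (B * h + b * h) h]
    set c := f a x (2 * (B * h))
    unfold f
    push_cast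
    field_simp
    ring
  have h2 : ∀ x : ZMod M, ∑ b ∈ range B,
      (Ps a x (B * h) ((b + 1) * h) - Ps a x (B * h) (b * h)) ^ 2 ≤
      2 / (B : ℝ) ^ 2 * ∑ b ∈ range B, f a (x + ((B * h + b * h : ℕ) : ZMod M)) h ^ 2 +
        8 / (B : ℝ) * f a x (2 * (B * h)) ^ 2 := by
    intro x
    calc _ ≤ ∑ b ∈ range B, (2 / (B : ℝ) ^ 2 * f a (x + ((B * h + b * h : ℕ) : ZMod M)) h ^ 2 +
          8 / (B : ℝ) ^ 2 * f a x (2 * (B * h)) ^ 2) := by
          apply sum_le_sum
          intro b _
          rw [h1, mul_pow]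
          have : (f a (x + ((B * h + b * h : ℕ) : ZMod M)) h + 2 * f a x (2 * (B * h))) ^ 2 ≤
            2 * f a (x + ((B * h + b * h : ℕ) : ZMod M)) h ^ 2 +
              8 * f a x (2 * (B * h)) ^ 2 := by
            nlinarith [sq_nonneg (f a (x + ((B * h + b * h : ℕ) : ZMod M)) h -
              2 * f a x (2 * (B * h)))]
          calc _ ≤ (1 / (B : ℝ)) ^ 2 * (2 * f a (x + ((B * h + b * h : ℕ) : ZMod M)) h ^ 2 +
              8 * f a x (2 * (B * h)) ^ 2) := mul_le_mul_of_nonneg_left this (by positivity)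
            _ = _ := by ring
      _ = _ := by
          rw [sum_add_distrib, ← mul_sum, sum_const, card_range, nsmul_eq_mul]
          congr 1
          field_simp
  calc _ ≤ ∑ x, (2 / (B : ℝ) ^ 2 * ∑ b ∈ range B, f a (x + ((B * h + b * h : ℕ) : ZMod M)) h ^ 2 +
        8 / (B : ℝ) * f a x (2 * (B * h)) ^ 2) := sum_le_sum fun x _ => h2 x
    _ = 2 / (B : ℝ) ^ 2 * (B * e a h) + 8 / (B : ℝ) * e a (2 * (B * h)) := by
        rw [sum_add_distrib, ← mul_sum, ← mul_sum, sum_comm]
        have h4 : ∀ b ∈ range B, ∑ x : ZMod M, f a (x + ((B * h + b * h : ℕ) : ZMod M)) h ^ 2 =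
            e a h := by
          intro b _
          exact transl (fun x => f a x h ^ 2) _
        rw [sum_congr rfl h4, sum_const, card_range, nsmul_eq_mul]
        rfl
    _ ≤ 2 / (B : ℝ) ^ 2 * (B * e a h) + 8 / (B : ℝ) * e a h := by
        have h5 := e_mul_le a h (2 * B) hh (by omega)
        rw [mul_assoc] at h5
        gcongr
    _ = _ := by
        field_simp
        ring

end Pool.Agent.H5.Jump
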