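import Pool.Agent.H5.Jump.Cyc

/-!
Variation of the averages inside an octave, and comparison with shifted averages.
-/

namespace Pool.Agent.H5.Jump

open Finset

variable {M : ℕ} [NeZero M] (a : ZMod M → ℝ)

/-- bound for the square of the variation inside the octave `[2^k h, 2^(k+1) h)` -/
noncomputable def Q (h k : ℕ) (x : ZMod M) : ℝ :=
  64 * ∑ j ∈ range k, (1 / 3 : ℝ) ^ (k - j) * P a (2 ^ j * h) (2 * 2 ^ (k - j)) x +
    20 * (4 / 3 : ℝ) ^ k * ∑ b ∈ range (2 ^ k),
      (Ps a x (2 ^ k * h) ((b + 1) * h) - Ps a x (2 ^ k * h) (b * h)) ^ 2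

theorem Q_nonneg (h k : ℕ) (x : ZMod M) : 0 ≤ Q a h k x := by
  unfold Q
  have h1 : 0 ≤ ∑ j ∈ range k, (1 / 3 : ℝ) ^ (k - j) * P a (2 ^ j * h) (2 * 2 ^ (k - j)) x :=
    sum_nonneg fun j _ => mul_nonneg (by positivity) (P_nonneg a _ _ x)
  have h2 : 0 ≤ ∑ b ∈ range (2 ^ k),
      (Ps a x (2 ^ k * h) ((b + 1) * h) - Ps a x (2 ^ k * h) (b * h)) ^ 2 :=
    sum_nonneg fun _ _ => sq_nonneg _
  positivity

/-- telescoping over the dyadic digits -/
theorem digits (F : ℕ → ℝ) (h k s : ℕ) (hh : 0 < h) (hs : s < 2 ^ k * h) :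
    F s - F 0 = ∑ j ∈ range k, (F (s / (2 ^ j * h) * (2 ^ j * h)) -
      F (2 * (s / (2 ^ j * h) / 2) * (2 ^ j * h))) + (F s - F (s / h * h)) := by
  have h1 : ∀ j ∈ range k, (F (s / (2 ^ j * h) * (2 ^ j * h)) -
      F (2 * (s / (2 ^ j * h) / 2) * (2 ^ j * h))) =
      (fun j => F (s / (2 ^ j * h) * (2 ^ j * h))) j -
        (fun j => F (s / (2 ^ j * h) * (2 ^ j * h))) (j + 1) := by
    intro j _
    simp only
    have h2 : s / (2 ^ j * h) / 2 = s / (2 ^ (j + 1) * h) := by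
      rw [Nat.div_div_eq_div_mul]
      congr 1
      ring
    rw [h2]
    congr 2
    ring
  rw [sum_congr rfl h1, sum_range_sub']
  simp only [pow_zero, one_mul]
  rw [Nat.div_eq_of_lt hs, zero_mul]
  ring

variable (ha : ∀ x, 0 ≤ a x)

include ha in
/-- the variation inside an octave -/
theorem octave (x : ZMod M) (h k : ℕ) (hh : 0 < h) (t : ℕ → ℕ) (ht : Monotone t) (I : Finset ℕ)
    (hI : ∀ i ∈ I, t (i + 1) < 2 ^ k * h) :
    ∑ i ∈ I, (f a x (2 ^ k * h + t (i + 1)) - f a x (2 ^ k * h + t i)) ^ 2 ≤ Q a h k x := by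
  set F : ℕ → ℝ := fun s => f a x (2 ^ k * h + s) with hF
  set D : ℕ → ℕ → ℝ := fun j b => F (b * (2 ^ j * h)) - F (2 * (b / 2) * (2 ^ j * h)) with hD
  set y : ℕ → ℕ → ℝ := fun i j => D j (t (i + 1) / (2 ^ j * h)) - D j (t i / (2 ^ j * h)) with hy
  set z : ℕ → ℝ := fun i => (F (t (i + 1)) - F (t (i + 1) / h * h)) - (F (t i) - F (t i / h * h))
    with hz
  have hdec : ∀ i ∈ I, F (t (i + 1)) - F (t i) = ∑ j ∈ range k, y i j + z i := by
    intro i hi
    have h1 := digits F h k (t (i + 1)) hh (hI i hi)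
    have h2 := digits F h k (t i) hh (lt_of_le_of_lt (ht (Nat.le_succ i)) (hI i hi))
    simp only [hy, hz, hD]
    rw [sum_sub_distrib]
    linarith
  have hyb : ∀ j ∈ range k, ∑ i ∈ I, y i j ^ 2 ≤
      4 * (4 / ((2 : ℝ) ^ (k - j)) ^ 2 * P a (2 ^ j * h) (2 * 2 ^ (k - j)) x) := by
    intro j hj
    rw [mem_range] at hj
    have hLpos : 0 < 2 ^ j * h := by positivity
    have hk : 2 ^ k = 2 ^ (k - j) * 2 ^ j := by
      rw [← pow_add]
      congr 1
      omega
    have h1 := mono_double (fun i => t i / (2 ^ j * h)) (fun u v huv => Nat.div_le_div_right (ht huv))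
      (D j) (2 ^ (k - j)) I (by
        intro i hi
        have h2 := hI i hi
        apply Nat.div_lt_of_lt_mul
        rw [hk] at h2
        calc t (i + 1) < _ := h2
          _ = _ := by ring)
    have h3 := oct_D a x (2 ^ j * h) (2 ^ (k - j)) hLpos (by positivity)
    have h4 : 2 ^ (k - j) * (2 ^ j * h) = 2 ^ k * h := by rw [hk]; ring
    rw [h4] at h3
    push_cast at h3
    calc ∑ i ∈ I, y i j ^ 2 ≤ 4 * ∑ b ∈ range (2 ^ (k - j)), D j b ^ 2 := h1
      _ ≤ _ := mul_le_mul_of_nonneg_left h3 (by norm_num)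
  have hzb : ∑ i ∈ I, z i ^ 2 ≤ 5 * ∑ b ∈ range (2 ^ k),
      (Ps a x (2 ^ k * h) ((b + 1) * h) - Ps a x (2 ^ k * h) (b * h)) ^ 2 :=
    base_double t ht F (Ps a x (2 ^ k * h)) h (2 ^ k) hh
      (fun s s' h1 h2 => Ps_major a ha x (2 ^ k * h) (by positivity) s s' h1 h2) I hI
  calc ∑ i ∈ I, (f a x (2 ^ k * h + t (i + 1)) - f a x (2 ^ k * h + t i)) ^ 2 =
        ∑ i ∈ I, (∑ j ∈ range k, y i j + z i) ^ 2 := by
        apply sum_congr rfl
        intro i hi
        rw [← hdec i hi]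
    _ ≤ ∑ i ∈ I, 4 * (∑ j ∈ range k, (4 / 3 : ℝ) ^ (k - j) * y i j ^ 2 +
        (4 / 3 : ℝ) ^ k * z i ^ 2) := sum_le_sum fun i _ => weighted k (y i) (z i)
    _ = 4 * (∑ j ∈ range k, (4 / 3 : ℝ) ^ (k - j) * ∑ i ∈ I, y i j ^ 2 +
        (4 / 3 : ℝ) ^ k * ∑ i ∈ I, z i ^ 2) := by
        rw [← mul_sum, sum_add_distrib, sum_comm, ← mul_sum]
        congr 2
        apply sum_congr rfl
        intro j _
        rw [mul_sum]
    _ ≤ 4 * (∑ j ∈ range k, (4 / 3 : ℝ) ^ (k - j) *
          (4 * (4 / ((2 : ℝ) ^ (k - j)) ^ 2 * P a (2 ^ j * h) (2 * 2 ^ (k - j)) x)) +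
        (4 / 3 : ℝ) ^ k * (5 * ∑ b ∈ range (2 ^ k),
      (Ps a x (2 ^ k * h) ((b + 1) * h) - Ps a x (2 ^ k * h) (b * h)) ^ 2)) := by
        apply mul_le_mul_of_nonneg_left _ (by norm_num)
        apply add_le_add
        · apply sum_le_sum
          intro j hj
          exact mul_le_mul_of_nonneg_left (hyb j hj) (by positivity)
        · exact mul_le_mul_of_nonneg_left hzb (by positivity)
    _ = Q a h k x := by
        unfold Q
        set W := ∑ b ∈ range (2 ^ k),
          (Ps a x (2 ^ k * h) ((b + 1) * h) - Ps a x (2 ^ k * h) (b * h)) ^ 2 with hW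
        have h6 : 4 * ∑ j ∈ range k, (4 / 3 : ℝ) ^ (k - j) *
            (4 * (4 / ((2 : ℝ) ^ (k - j)) ^ 2 * P a (2 ^ j * h) (2 * 2 ^ (k - j)) x)) =
            64 * ∑ j ∈ range k, (1 / 3 : ℝ) ^ (k - j) * P a (2 ^ j * h) (2 * 2 ^ (k - j)) x := by
          rw [mul_sum, mul_sum]
          apply sum_congr rfl
          intro j _
          have h5 : (4 / 3 : ℝ) ^ (k - j) * (4 / ((2 : ℝ) ^ (k - j)) ^ 2) =
              4 * (1 / 3 : ℝ) ^ (k - j) := by
            rw [← pow_mul, mul_comm (k - j) 2, pow_mul]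
            norm_num
            rw [div_pow, div_pow, one_pow]
            field_simp
          calc 4 * ((4 / 3 : ℝ) ^ (k - j) *
                (4 * (4 / ((2 : ℝ) ^ (k - j)) ^ 2 * P a (2 ^ j * h) (2 * 2 ^ (k - j)) x))) =
                16 * ((4 / 3 : ℝ) ^ (k - j) * (4 / ((2 : ℝ) ^ (k - j)) ^ 2)) *
                  P a (2 ^ j * h) (2 * 2 ^ (k - j)) x := by ring
            _ = _ := by rw [h5]; ring
        rw [mul_add, h6]
        ring

include ha in
theorem sum_Q (h k : ℕ) (hh : 0 < h) :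
    ∑ x, Q a h k x ≤ 128 * ∑ j ∈ range k, (2 / 3 : ℝ) ^ (k - j) *
      (e a (2 ^ j * h) - e a (2 ^ (k + 1) * h)) + 200 * (2 / 3 : ℝ) ^ k * e a h := by
  unfold Q
  rw [sum_add_distrib, ← mul_sum, ← mul_sum, sum_comm]
  apply add_le_add
  · rw [mul_sum, mul_sum]
    apply sum_le_sum
    intro j hj
    rw [mem_range] at hj
    rw [← mul_sum, sum_P a _ _ (by positivity) (by positivity)]
    have h1 : 2 * 2 ^ (k - j) * (2 ^ j * h) = 2 ^ (k + 1) * h := by
      have : 2 ^ (k + 1) = 2 * (2 ^ (k - j) * 2 ^ j) := by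
        rw [← pow_add, show k - j + j = k by omega, pow_succ]
        ring
      rw [this]
      ring
    rw [h1]
    push_cast
    apply le_of_eq
    have h2 : (2 / 3 : ℝ) ^ (k - j) = (1 / 3 : ℝ) ^ (k - j) * 2 ^ (k - j) := by
      rw [← mul_pow]
      norm_num
    rw [h2]
    ring
  · have h1 := Ps_sum a ha h (2 ^ k) hh (by positivity)
    calc 20 * (4 / 3 : ℝ) ^ k * _ ≤ 20 * (4 / 3 : ℝ) ^ k * (10 / ((2 ^ k : ℕ) : ℝ) * e a h) :=
          mul_le_mul_of_nonneg_left h1 (by positivity)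
      _ = _ := by
          push_cast
          have h2 : (4 / 3 : ℝ) ^ k = (2 / 3 : ℝ) ^ k * 2 ^ k := by
            rw [← mul_pow]
            norm_num
          rw [h2]
          field_simp
          ring

/-- shifts by `L` of averages at scale `r L` -/
theorem shift_L (L r : ℕ) (hL : 0 < L) (hr : 0 < r) :
    ∑ x, (f a (x + (L : ZMod M)) (r * L) - f a x (r * L)) ^ 2 ≤
      4 / (r : ℝ) * (e a L - e a (2 * r * L)) := by
  have hrR : (0 : ℝ) < r := by exact_mod_cast hr
  have hLR : (0 : ℝ) < L := by exact_mod_cast hL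
  have h1 : ∀ x : ZMod M, (f a (x + (L : ZMod M)) (r * L) - f a x (r * L)) ^ 2 ≤
      2 / (r : ℝ) ^ 2 * P a L (2 * r) x := by
    intro x
    have h2 : f a (x + (L : ZMod M)) (r * L) - f a x (r * L) =
        1 / (r : ℝ) * (f a (x + ((r * L : ℕ) : ZMod M)) L - f a x L) := by
      have h3 := S_add a x L (r * L)
      have h4 := S_add a x (r * L) L
      rw [add_comm L (r * L)] at h3
      rw [h3] at h4
      unfold f
      have h5 : S a (x + (L : ZMod M)) (r * L) - S a x (r * L) =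
        S a (x + ((r * L : ℕ) : ZMod M)) L - S a x L := by linarith
      rw [← sub_div, h5]
      push_cast
      field_simp
    rw [h2, mul_pow]
    have h6 : (f a (x + ((r * L : ℕ) : ZMod M)) L - f a x L) ^ 2 ≤ 2 * P a L (2 * r) x := by
      set c := f a x (2 * r * L) with hc
      have h7 : (f a (x + ((r * L : ℕ) : ZMod M)) L - c) ^ 2 + (f a x L - c) ^ 2 ≤
          P a L (2 * r) x := by
        unfold P
        have h8 : ({r, 0} : Finset ℕ) ⊆ range (2 * r) := by
          intro i hi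
          simp only [mem_insert, mem_singleton] at hi
          rw [mem_range]
          omega
        have h9 := sum_le_sum_of_subset_of_nonneg (f := fun i =>
          (f a (x + ((i * L : ℕ) : ZMod M)) L - f a x (2 * r * L)) ^ 2) h8
          (fun i _ _ => sq_nonneg _)
        rw [sum_pair (by omega)] at h9
        simpa using h9
      nlinarith [sq_nonneg ((f a (x + ((r * L : ℕ) : ZMod M)) L - c) + (f a x L - c))]
    calc (1 / (r : ℝ)) ^ 2 * _ ≤ (1 / (r : ℝ)) ^ 2 * (2 * P a L (2 * r) x) :=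
          mul_le_mul_of_nonneg_left h6 (by positivity)
      _ = _ := by ring
  calc _ ≤ ∑ x, 2 / (r : ℝ) ^ 2 * P a L (2 * r) x := sum_le_sum fun x _ => h1 x
    _ = _ := by
        rw [← mul_sum, sum_P a L (2 * r) hL (by omega)]
        push_cast
        field_simp
        ring

include ha in
/-- shifts by less than the base length -/
theorem shift_small (h w R : ℕ) (hh : 0 < h) (hR : 0 < R) (hw : w ≤ h) :
    ∑ x, (f a (x + (w : ZMod M)) R - f a x R) ^ 2 ≤ 4 * ((h : ℝ) / R) ^ 2 * e a h := by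
  have hRR : (0 : ℝ) < R := by exact_mod_cast hR
  have hhR : (0 : ℝ) < h := by exact_mod_cast hh
  have h1 : ∀ x : ZMod M, (f a (x + (w : ZMod M)) R - f a x R) ^ 2 ≤
      ((h : ℝ) / R) ^ 2 * (2 * f a (x + (R : ZMod M)) h ^ 2 + 2 * f a x h ^ 2) := by
    intro x
    have h3 := S_add a x w R
    have h4 := S_add a x R w
    rw [add_comm w R] at h3
    rw [h3] at h4
    have h5 : f a (x + (w : ZMod M)) R - f a x R =
        (S a (x + (R : ZMod M)) w - S a x w) / R := by
      unfold f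
      rw [← sub_div]
      congr 1
      linarith
    have h6 := S_mono a ha (x + (R : ZMod M)) hw
    have h7 := S_mono a ha x hw
    have h8 := S_nonneg a ha (x + (R : ZMod M)) w
    have h9 := S_nonneg a ha x w
    have h10 : (S a (x + (R : ZMod M)) w - S a x w) ^ 2 ≤
        2 * S a (x + (R : ZMod M)) h ^ 2 + 2 * S a x h ^ 2 := by
      have h11 : (S a (x + (R : ZMod M)) w) ^ 2 ≤ S a (x + (R : ZMod M)) h ^ 2 :=
        pow_le_pow_left₀ h8 h6 2
      have h12 : (S a x w) ^ 2 ≤ S a x h ^ 2 := pow_le_pow_left₀ h9 h7 2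
      nlinarith [sq_nonneg (S a (x + (R : ZMod M)) w + S a x w)]
    rw [h5, div_pow]
    have h13 : ((h : ℝ) / R) ^ 2 * (2 * f a (x + (R : ZMod M)) h ^ 2 + 2 * f a x h ^ 2) =
        (2 * S a (x + (R : ZMod M)) h ^ 2 + 2 * S a x h ^ 2) / (R : ℝ) ^ 2 := by
      unfold f
      field_simp
    rw [h13]
    gcongr
  calc _ ≤ ∑ x, ((h : ℝ) / R) ^ 2 * (2 * f a (x + (R : ZMod M)) h ^ 2 + 2 * f a x h ^ 2) :=
        sum_le_sum fun x _ => h1 x
    _ = _ := by
        rw [← mul_sum, sum_add_distrib, ← mul_sum, ← mul_sum,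
          transl (fun x => f a x h ^ 2) (R : ZMod M)]
        unfold e
        ring

include ha in
/-- shifts by less than the length of the interval -/
theorem shift (h k u : ℕ) (hh : 0 < h) (hu : u < 2 ^ k * h) :
    ∑ x, (f a (x + (u : ZMod M)) (2 ^ k * h) - f a x (2 ^ k * h)) ^ 2 ≤
      16 * ∑ j ∈ range k, (2 / 3 : ℝ) ^ (k - j) * (e a (2 ^ j * h) - e a (2 ^ (k + 1) * h)) +
        16 * (1 / 3 : ℝ) ^ k * e a h := by
  set R := 2 ^ k * h with hR
  set y : ZMod M → ℕ → ℝ := fun x j => f a (x + ((u / (2 ^ j * h) * (2 ^ j * h) : ℕ) : ZMod M)) R -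
    f a (x + ((2 * (u / (2 ^ j * h) / 2) * (2 ^ j * h) : ℕ) : ZMod M)) R with hy
  set z : ZMod M → ℝ := fun x => f a (x + (u : ZMod M)) R - f a (x + ((u / h * h : ℕ) : ZMod M)) R
    with hz
  have hdec : ∀ x : ZMod M, f a (x + (u : ZMod M)) R - f a x R = ∑ j ∈ range k, y x j + z x := by
    intro x
    have h1 := digits (fun s => f a (x + (s : ZMod M)) R) h k u hh hu
    simp only [Nat.cast_zero, add_zero] at h1
    rw [h1]
  have hyb : ∀ j ∈ range k, ∑ x, y x j ^ 2 ≤
      4 / (2 : ℝ) ^ (k - j) * (e a (2 ^ j * h) - e a (2 ^ (k + 1) * h)) := by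
    intro j hj
    rw [mem_range] at hj
    have hk : 2 ^ k = 2 ^ (k - j) * 2 ^ j := by
      rw [← pow_add]
      congr 1
      omega
    have h1 := shift_L a (2 ^ j * h) (2 ^ (k - j)) (by positivity) (by positivity)
    have h2 : 2 ^ (k - j) * (2 ^ j * h) = R := by rw [hR, hk]; ring
    have h3 : 2 * 2 ^ (k - j) * (2 ^ j * h) = 2 ^ (k + 1) * h := by
      rw [mul_assoc, h2, hR, pow_succ]
      ring
    rw [h2, h3] at h1
    push_cast at h1
    have h0 : 0 ≤ ∑ x, (f a (x + (2 ^ j * (h : ZMod M))) R - f a x R) ^ 2 :=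
      sum_nonneg fun _ _ => sq_nonneg _
    rcases Nat.even_or_odd (u / (2 ^ j * h)) with hev | hodd
    · have h4 : 2 * (u / (2 ^ j * h) / 2) = u / (2 ^ j * h) := Nat.two_mul_div_two_of_even hev
      simp only [hy, h4, sub_self]
      simp only [ne_eq, OfNat.ofNat_ne_zero, not_false_eq_true, zero_pow, sum_const_zero]
      exact h0.trans h1
    · have h4 : 2 * (u / (2 ^ j * h) / 2) + 1 = u / (2 ^ j * h) := by
        obtain ⟨c, hc⟩ := hodd
        omega
      set b := 2 * (u / (2 ^ j * h) / 2) with hb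
      have h5 : ∀ x : ZMod M, y x j = (fun x => f a (x + (2 ^ j * (h : ZMod M))) R - f a x R)
          (x + ((b * (2 ^ j * h) : ℕ) : ZMod M)) := by
        intro x
        simp only [hy]
        rw [← hb, ← h4]
        congr 2
        push_cast
        ring
      have h6 : ∑ x, y x j ^ 2 = ∑ x, (f a (x + (2 ^ j * (h : ZMod M))) R - f a x R) ^ 2 := by
        rw [← transl (fun x => (f a (x + (2 ^ j * (h : ZMod M))) R - f a x R) ^ 2)
          ((b * (2 ^ j * h) : ℕ) : ZMod M)]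
        apply sum_congr rfl
        intro x _
        rw [h5]
      rw [h6]
      exact h1
  have hzb : ∑ x, z x ^ 2 ≤ 4 * (1 / (2 : ℝ) ^ k) ^ 2 * e a h := by
    have hw : u - u / h * h ≤ h := by
      have := Nat.lt_div_mul_add (a := u) hh
      omega
    have h1 := shift_small a ha h (u - u / h * h) R hh (by positivity) hw
    have h2 : ((h : ℝ) / R) = 1 / (2 : ℝ) ^ k := by
      rw [hR]
      push_cast
      have : (h : ℝ) ≠ 0 := by exact_mod_cast hh.ne'
      field_simp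
    rw [h2] at h1
    have h5 : ∀ x : ZMod M, z x = (fun x => f a (x + ((u - u / h * h : ℕ) : ZMod M)) R - f a x R)
        (x + ((u / h * h : ℕ) : ZMod M)) := by
      intro x
      simp only [hz]
      congr 2
      rw [add_assoc, ← Nat.cast_add, Nat.add_sub_cancel' (Nat.div_mul_le_self u h)]
    have h6 : ∑ x, z x ^ 2 = ∑ x, (f a (x + ((u - u / h * h : ℕ) : ZMod M)) R - f a x R) ^ 2 := by
      rw [← transl (fun x => (f a (x + ((u - u / h * h : ℕ) : ZMod M)) R - f a x R) ^ 2)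
        ((u / h * h : ℕ) : ZMod M)]
      apply sum_congr rfl
      intro x _
      rw [h5]
    rw [h6]
    exact h1
  calc ∑ x, (f a (x + (u : ZMod M)) R - f a x R) ^ 2 = ∑ x, (∑ j ∈ range k, y x j + z x) ^ 2 := by
        apply sum_congr rfl
        intro x _
        rw [hdec]
    _ ≤ ∑ x, 4 * (∑ j ∈ range k, (4 / 3 : ℝ) ^ (k - j) * y x j ^ 2 +
        (4 / 3 : ℝ) ^ k * z x ^ 2) := sum_le_sum fun x _ => weighted k (y x) (z x)
    _ = 4 * (∑ j ∈ range k, (4 / 3 : ℝ) ^ (k - j) * ∑ x, y x j ^ 2 +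
        (4 / 3 : ℝ) ^ k * ∑ x, z x ^ 2) := by
        rw [← mul_sum, sum_add_distrib, sum_comm, ← mul_sum]
        congr 2
        apply sum_congr rfl
        intro j _
        rw [mul_sum]
    _ ≤ 4 * (∑ j ∈ range k, (4 / 3 : ℝ) ^ (k - j) *
          (4 / (2 : ℝ) ^ (k - j) * (e a (2 ^ j * h) - e a (2 ^ (k + 1) * h))) +
        (4 / 3 : ℝ) ^ k * (4 * (1 / (2 : ℝ) ^ k) ^ 2 * e a h)) := by
        apply mul_le_mul_of_nonneg_left _ (by norm_num)
        apply add_le_add
        · apply sum_le_sum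
          intro j hj
          exact mul_le_mul_of_nonneg_left (hyb j hj) (by positivity)
        · exact mul_le_mul_of_nonneg_left hzb (by positivity)
    _ = _ := by
        rw [mul_add, mul_sum, mul_sum]
        congr 1
        · apply sum_congr rfl
          intro j _
          have h5 : (4 / 3 : ℝ) ^ (k - j) = (2 / 3 : ℝ) ^ (k - j) * 2 ^ (k - j) := by
            rw [← mul_pow]
            norm_num
          rw [h5]
          field_simp
          ring
        · have h5 : (4 / 3 : ℝ) ^ k = (1 / 3 : ℝ) ^ k * (2 ^ k) ^ 2 := by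
            rw [← pow_mul, mul_comm k 2, pow_mul, ← mul_pow]
            norm_num
          rw [h5]
          field_simp
          ring

end Pool.Agent.H5.Jump
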